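import Pool.Agent.Lib.Helper95.Borsuk.Flags

/-!
# One extra colour
-/

open MeasureTheory Set Filter Topology

noncomputable section

namespace BorsukLib

variable {d n : ℕ}

/-- adjacent points are nearly antipodal -/
theorem adj_norm {α : ℝ} {u v : Sph d} (h : (borsukGraph d α).Adj u v) : ‖(u : E d) + v‖ < α := by
  have hθ : Real.pi - α < gdist u v := h.2
  set θ := gdist u v with hθd
  have hu : ‖(u : E d)‖ = 1 := by simp
  have hv : ‖(v : E d)‖ = 1 := by simp
  have hθπ : θ ≤ Real.pi := InnerProductGeometry.angle_le_pi _ _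
  have hinner : inner ℝ (u : E d) (v : E d) = Real.cos θ := by
    rw [hθd, gdist, InnerProductGeometry.cos_angle, hu, hv]; simp
  have hsq : ‖(u : E d) + v‖ ^ 2 = 2 + 2 * Real.cos θ := by
    rw [norm_add_sq_real, hu, hv, hinner]; ring
  have hcos : Real.cos θ = - Real.cos (Real.pi - θ) := by rw [Real.cos_pi_sub]; ring
  have h1 := Real.one_sub_sq_div_two_le_cos (x := Real.pi - θ)
  have ht0 : 0 ≤ Real.pi - θ := by linarith
  have h2 : ‖(u : E d) + v‖ ^ 2 ≤ (Real.pi - θ) ^ 2 := by
    rw [hsq, hcos]; linarith
  have h3 : ‖(u : E d) + v‖ ≤ Real.pi - θ := abs_le_of_sq_le_sq' h2 ht0 |>.2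
  linarith

/-- `k`-colourability event -/
def colEv (d n : ℕ) (α : ℝ) (k : ℕ) : Set (Fin n → Sph d) := {X | (sampleGraph α X).Colorable k}

theorem good_color {α : ℝ} {k : ℕ} (hk : 1 ≤ k) {X : Fin n → Sph d}
    (h : Good (2 * α) (colEv d n α k) X) : (sampleGraph α X).Colorable (k + 1) := by
  classical
  obtain ⟨ν, hν, Y, ⟨c⟩, hYX⟩ := h
  set ht : Fin n → ℝ := fun t => inner ℝ ν (X t : E d) with hht
  have hadj : ∀ i j, (sampleGraph α X).Adj i j → |ht i + ht j| < α := by
    intro i j hij
    have h1 := adj_norm hij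
    have h2 : ht i + ht j = inner ℝ ν ((X i : E d) + X j) := by
      rw [inner_add_right]
    rw [h2]
    calc |inner ℝ ν ((X i : E d) + X j)| ≤ ‖ν‖ * ‖(X i : E d) + X j‖ := abs_real_inner_le_norm _ _
      _ < α := by rw [hν, one_mul]; exact h1
  have hYadj : ∀ i j, |ht i| ≤ 2 * α → |ht j| ≤ 2 * α → (sampleGraph α X).Adj i j → c i ≠ c j := by
    intro i j hi hj hij
    apply c.valid
    show (borsukGraph d α).Adj (Y i) (Y j)
    rw [hYX i hi, hYX j hj]
    exact hij
  let z : Fin k := ⟨0, hk⟩
  let f : Fin n → Option (Fin k) := fun t =>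
    if α < ht t then none else if ht t < -(2 * α) then some z else some (c t)
  have hf : ∀ {i j}, (sampleGraph α X).Adj i j → f i ≠ f j := by
    intro i j hij
    have hs := hadj i j hij
    rw [abs_lt] at hs
    have hij' := hadj j i hij.symm
    simp only [f]
    by_cases h1 : α < ht i
    · have h2 : ¬ α < ht j := by
        intro h2; linarith
      rw [if_pos h1, if_neg h2]
      split_ifs <;> simp
    · by_cases h2 : α < ht j
      · rw [if_neg h1, if_pos h2]
        split_ifs <;> simp
      · rw [if_neg h1, if_neg h2]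
        by_cases h3 : ht i < -(2 * α)
        · exfalso; linarith
        · by_cases h4 : ht j < -(2 * α)
          · exfalso; linarith
          · rw [if_neg h3, if_neg h4]
            intro heq
            have hi : |ht i| ≤ 2 * α := by
              rw [abs_le]; constructor
              · linarith
              · push Not at h1
                have : 0 < α := by linarith [hs.1, hs.2]
                linarith
            have hj : |ht j| ≤ 2 * α := by
              rw [abs_le]; constructor
              · linarith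
              · push Not at h2
                have : 0 < α := by linarith [hs.1, hs.2]
                linarith
            exact hYadj i j hi hj hij (Option.some_injective _ heq)
  have := (SimpleGraph.Coloring.mk f hf).colorable
  simpa using this

theorem gdist_measurable : Measurable fun p : Sph d × Sph d => gdist p.1 p.2 := by
  unfold gdist InnerProductGeometry.angle
  have : Measurable fun p : Sph d × Sph d =>
      inner ℝ (p.1 : E d) (p.2 : E d) / (‖(p.1 : E d)‖ * ‖(p.2 : E d)‖) := by fun_prop
  exact Real.measurable_arccos.comp this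

theorem adj_measurable (α : ℝ) (i j : Fin n) :
    MeasurableSet {X : Fin n → Sph d | (sampleGraph α X).Adj i j} := by
  have h1 : MeasurableSet {X : Fin n → Sph d | X i ≠ X j} :=
    (measurableSet_eq_fun (measurable_pi_apply i) (measurable_pi_apply j)).compl
  have h2 : MeasurableSet {X : Fin n → Sph d | Real.pi - α < gdist (X i) (X j)} := by
    have hpair : Measurable (fun X : Fin n → Sph d => (X i, X j)) :=
      (measurable_pi_apply i).prodMk (measurable_pi_apply j)
    have hs : MeasurableSet {p : Sph d × Sph d | Real.pi - α < gdist p.1 p.2} :=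
      measurableSet_lt measurable_const gdist_measurable
    exact hpair hs
  have h3 : {X : Fin n → Sph d | (sampleGraph α X).Adj i j}
      = {X | X i ≠ X j} ∩ {X | Real.pi - α < gdist (X i) (X j)} := by
    ext X; exact Iff.rfl
  rw [h3]
  exact h1.inter h2

theorem colEv_measurable (α : ℝ) (k : ℕ) : MeasurableSet (colEv d n α k) := by
  have : colEv d n α k = ⋃ c : Fin n → Fin k, ⋂ i, ⋂ j, ⋂ (_ : c i = c j),
      {X : Fin n → Sph d | (sampleGraph α X).Adj i j}ᶜ := by
    ext X
    simp only [colEv, mem_ofPred_eq, mem_iUnion, mem_iInter, mem_compl_iff]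
    constructor
    · rintro ⟨c⟩
      exact ⟨c, fun i j hij hadj => c.valid hadj hij⟩
    · rintro ⟨c, hc⟩
      exact ⟨SimpleGraph.Coloring.mk c (fun {i j} hadj hij => hc i j hij hadj)⟩
  rw [this]
  exact MeasurableSet.iUnion fun c => MeasurableSet.iInter fun i => MeasurableSet.iInter fun j =>
    MeasurableSet.iInter fun _ => (adj_measurable α i j).compl

/-- **Key probabilistic estimate.** -/
theorem good_prob (d : ℕ) {ε : ℝ} (hε : 0 < ε) : ∀ᶠ r in 𝓝[>] (0:ℝ), ∀ (n : ℕ)
    (D : Set (Fin n → Sph d)), MeasurableSet D → ∀ B : Set (Fin n → Sph d), MeasurableSet B →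
      (∀ x ∈ B, ¬ Good r D x) → (sampleLaw d n).real D * (sampleLaw d n).real B ≤ ε := by
  have hd : d < d + 1 := Nat.lt_succ_self d
  set w : E d := EuclideanSpace.single ⟨d, hd⟩ (1:ℝ) with hw
  obtain ⟨K, hK, hev⟩ := flags d d hd w
    (by
      intro l hl
      have : l ≠ ⟨d, hd⟩ := fun h => by rw [h] at hl; simp at hl
      simp [hw, this])
    (by simp [hw]) ε hε 0 (by norm_num)
  have hsmall : ∀ᶠ r in 𝓝[>] (0:ℝ), ((d:ℝ) + 1) * (K * r) ^ 2 < 1 := by
    have hc : Tendsto (fun r : ℝ => ((d:ℝ) + 1) * (K * r) ^ 2) (𝓝[>] 0) (𝓝 (((d:ℝ) + 1) * (K * 0) ^ 2)) := by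
      refine Tendsto.mono_left ?_ nhdsWithin_le_nhds
      exact (Continuous.tendsto (by fun_prop) 0)
    refine hc.eventually_lt_const ?_
    simp
  filter_upwards [hev, hsmall] with r hr hr2 n D hD B hB hBG
  have hReg : Reg d w (K * r) ⊆ (∅ : Set (Sph d)) := by
    intro x hx
    exfalso
    have hcoord : ∀ l : Fin (d+1), |(x : E d) l| ≤ K * r := by
      intro l
      by_cases hl : (l:ℕ) < d
      · exact hx.1 l hl
      · have : l = ⟨d, hd⟩ := Fin.ext (by have := l.2; simp; omega)
        have h2 := hx.2
        rw [hw, EuclideanSpace.inner_single_left] at h2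
        rw [this]
        simpa using h2
    have hnorm : ‖(x : E d)‖ ^ 2 = 1 := by
      have : ‖(x : E d)‖ = 1 := by simp
      rw [this]; norm_num
    rw [EuclideanSpace.norm_sq_eq] at hnorm
    have : ∑ l : Fin (d+1), ‖(x : E d) l‖ ^ 2 ≤ ∑ _l : Fin (d+1), (K * r) ^ 2 := by
      refine Finset.sum_le_sum (fun l _ => ?_)
      rw [Real.norm_eq_abs]
      exact pow_le_pow_left₀ (abs_nonneg _) (hcoord l) 2
    rw [Finset.sum_const, Finset.card_univ, Fintype.card_fin, nsmul_eq_mul, hnorm] at this
    push_cast at this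
    linarith
  obtain ⟨h, hBM, hint, hgood⟩ := hr n D hD ∅ MeasurableSet.empty hReg (by simp)
  have hcp : ∀ x, cp (unif d) ∅ D x = (sampleLaw d n).real D := fun x => cp_empty (unif d) hD x
  simp_rw [hcp] at hint
  set p := (sampleLaw d n).real D with hp
  have hp0 : 0 ≤ p := measureReal_nonneg
  have hind : BM (B.indicator (fun _ => (1:ℝ))) := BM.indicator hB
  calc p * (sampleLaw d n).real B = ∫ x, p * B.indicator (fun _ => (1:ℝ)) x ∂(sampleLaw d n) := by
        rw [integral_const_mul, integral_indicator_const _ hB]; simp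
    _ ≤ ∫ x, |h x - p| ∂(sampleLaw d n) := by
        refine integral_mono ((hind.const_mul _).integrable _)
          (((hBM.sub (BM.const p)).abs).integrable _) (fun x => ?_)
        by_cases hx : x ∈ B
        · have hle : h x ≤ 0 := by
            by_contra hcon
            exact hBG x hx (hgood x (not_le.mp hcon))
          simp only [indicator_of_mem hx, mul_one]
          calc p ≤ p - h x := by linarith
            _ = -(h x - p) := by ring
            _ ≤ |h x - p| := neg_le_abs _
        · simp [indicator_of_notMem hx]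
    _ ≤ ε := hint

/-- **No gap of two.** For small `α`, uniformly in `n` and `k`, the events `χ ≤ k` and `χ ≥ k + 2`
cannot both be likely. -/
theorem no_gap (d : ℕ) {ε : ℝ} (hε : 0 < ε) : ∃ a > (0:ℝ), ∀ α, 0 < α → α < a → ∀ n k : ℕ,
    (sampleLaw d n).real (colEv d n α k) * (sampleLaw d n).real (colEv d n α (k+1))ᶜ ≤ ε := by
  have h := good_prob d hε
  rw [eventually_nhdsWithin_iff, Metric.eventually_nhds_iff] at h
  obtain ⟨b, hb, hb2⟩ := h
  refine ⟨b / 2, by positivity, fun α hα hαb n k => ?_⟩
  rcases Nat.eq_zero_or_pos k with rfl | hk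
  · rcases Nat.eq_zero_or_pos n with rfl | hn
    · have : (colEv d 0 α (0+1))ᶜ = ∅ := by
        rw [compl_empty_iff]
        ext X
        simp only [colEv, mem_ofPred_eq, mem_univ, iff_true]
        exact ((sampleGraph α X).colorable_of_fintype).mono (by simp)
      rw [this]; simp [hε.le]
    · have : colEv d n α 0 = ∅ := by
        ext X
        simp only [colEv, mem_ofPred_eq, mem_empty_iff_false, iff_false]
        rintro ⟨c⟩
        exact (c ⟨0, hn⟩).elim0
      rw [this]; simp [hε.le]
  · refine hb2 (y := 2 * α) ?_ ?_ n _ (colEv_measurable α k) _ (colEv_measurable α (k+1)).compl ?_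
    · rw [Real.dist_eq, sub_zero, abs_of_pos (by linarith)]; linarith
    · show (0:ℝ) < 2 * α
      linarith
    · intro x hx hg
      exact hx (good_color hk hg)

end BorsukLib
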