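import Mathlib

/-!
# Masked resampling on product spaces and near-orthogonality

`S` is a probability space `(S, μ)`, and `X_1, …, X_n` are i.i.d. with law `μ`.  For a measurable
set `U ⊆ S`, masking outside `U` forgets the position of every `X_t ∉ U`.  `EE μ U f` is the
conditional expectation of `f` given the masked sample, written as an explicit integral:
coordinates outside `U` are resampled from `μ(· | Uᶜ)`.
-/

open MeasureTheory Set

noncomputable section

namespace BorsukLib

/-- bounded measurable functions -/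
def BM {Ω : Type*} [MeasurableSpace Ω] (f : Ω → ℝ) : Prop :=
  Measurable f ∧ ∃ C : ℝ, ∀ x, |f x| ≤ C

namespace BM

variable {Ω Ω' : Type*} [MeasurableSpace Ω] [MeasurableSpace Ω']

theorem integrable {f : Ω → ℝ} (hf : BM f) (μ : Measure Ω) [IsFiniteMeasure μ] :
    Integrable f μ := by
  obtain ⟨h1, C, hC⟩ := hf
  exact Integrable.of_bound h1.aestronglyMeasurable C
    (Filter.Eventually.of_forall (fun x => by simpa [Real.norm_eq_abs] using hC x))

theorem const (c : ℝ) : BM (fun _ : Ω => c) := ⟨measurable_const, |c|, fun _ => le_rfl⟩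

theorem add {f g : Ω → ℝ} (hf : BM f) (hg : BM g) : BM (fun x => f x + g x) := by
  obtain ⟨h1, C, hC⟩ := hf
  obtain ⟨h2, D, hD⟩ := hg
  exact ⟨h1.add h2, C + D, fun x => (abs_add_le _ _).trans (add_le_add (hC x) (hD x))⟩

theorem sub {f g : Ω → ℝ} (hf : BM f) (hg : BM g) : BM (fun x => f x - g x) := by
  obtain ⟨h1, C, hC⟩ := hf
  obtain ⟨h2, D, hD⟩ := hg
  refine ⟨h1.sub h2, C + D, fun x => ?_⟩
  calc |f x - g x| ≤ |f x| + |g x| := abs_sub _ _
    _ ≤ _ := add_le_add (hC x) (hD x)

theorem mul {f g : Ω → ℝ} (hf : BM f) (hg : BM g) : BM (fun x => f x * g x) := by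
  obtain ⟨h1, C, hC⟩ := hf
  obtain ⟨h2, D, hD⟩ := hg
  refine ⟨h1.mul h2, C * D, fun x => ?_⟩
  rw [abs_mul]
  exact mul_le_mul (hC x) (hD x) (abs_nonneg _) ((abs_nonneg _).trans (hC x))

theorem sq {f : Ω → ℝ} (hf : BM f) : BM (fun x => f x ^ 2) := by
  have := hf.mul hf
  simpa [pow_two] using this

theorem const_mul {f : Ω → ℝ} (hf : BM f) (c : ℝ) : BM (fun x => c * f x) :=
  (BM.const c).mul hf

theorem abs {f : Ω → ℝ} (hf : BM f) : BM (fun x => |f x|) := by
  obtain ⟨h1, C, hC⟩ := hf
  exact ⟨by fun_prop, C, fun x => by simpa using hC x⟩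

theorem comp {f : Ω → ℝ} (hf : BM f) {φ : Ω' → Ω} (hφ : Measurable φ) : BM (fun x => f (φ x)) :=
  ⟨hf.1.comp hφ, hf.2.imp fun _ hC x => hC (φ x)⟩

theorem sum {ι : Type*} (s : Finset ι) {f : ι → Ω → ℝ} (hf : ∀ i ∈ s, BM (f i)) :
    BM (fun x => ∑ i ∈ s, f i x) := by
  classical
  induction s using Finset.induction_on with
  | empty => simpa using BM.const (Ω := Ω) 0
  | insert a s ha ih =>
    have := (hf a (by simp)).add (ih (fun i hi => hf i (by simp [hi])))
    simpa [Finset.sum_insert ha] using this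

theorem ite {f g : Ω → ℝ} (hf : BM f) (hg : BM g) {s : Set Ω} [DecidablePred (· ∈ s)]
    (hs : MeasurableSet s) : BM (fun x => if x ∈ s then f x else g x) := by
  obtain ⟨h1, C, hC⟩ := hf
  obtain ⟨h2, D, hD⟩ := hg
  refine ⟨Measurable.ite hs h1 h2, max C D, fun x => ?_⟩
  show |if x ∈ s then f x else g x| ≤ max C D
  split_ifs
  · exact (hC x).trans (le_max_left _ _)
  · exact (hD x).trans (le_max_right _ _)

/-- integrate out the second variable -/
theorem integral_right {f : Ω × Ω' → ℝ} (hf : BM f) (ν : Measure Ω') [IsProbabilityMeasure ν] :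
    BM (fun x => ∫ y, f (x, y) ∂ν) := by
  obtain ⟨h1, C, hC⟩ := hf
  refine ⟨(h1.stronglyMeasurable.integral_prod_right').measurable, C, fun x => ?_⟩
  have := norm_integral_le_of_norm_le_const (μ := ν) (f := fun y => f (x, y)) (C := C)
    (Filter.Eventually.of_forall (fun y => by simpa [Real.norm_eq_abs] using hC (x, y)))
  simpa [Real.norm_eq_abs] using this

/-- integrate out the first variable -/
theorem integral_left {f : Ω × Ω' → ℝ} (hf : BM f) (ν : Measure Ω) [IsProbabilityMeasure ν] :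
    BM (fun y => ∫ x, f (x, y) ∂ν) :=
  (hf.comp (measurable_swap)).integral_right ν

theorem indicator {s : Set Ω} (hs : MeasurableSet s) : BM (s.indicator (fun _ => (1:ℝ))) := by
  refine ⟨measurable_const.indicator hs, 1, fun x => ?_⟩
  by_cases hx : x ∈ s <;> simp [hx]

end BM

variable {S : Type*} [MeasurableSpace S]

/-- law of a point conditioned to be outside `U` -/
def nu (μ : Measure S) (U : Set S) : Measure S := ProbabilityTheory.cond μ Uᶜ

open Classical in
/-- keep the coordinates of `x` lying in `U`, replace the others by those of `y` -/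
def mix {n : ℕ} (U : Set S) (x y : Fin n → S) : Fin n → S := fun t => if x t ∈ U then x t else y t

/-- `f` depends only on the coordinates inside `U` (and on which coordinates are inside `U`) -/
def Dep {n : ℕ} (U : Set S) (f : (Fin n → S) → ℝ) : Prop :=
  ∀ x y : Fin n → S, (∀ t, x t = y t ∨ (x t ∉ U ∧ y t ∉ U)) → f x = f y

/-- conditional expectation given the sample masked outside `U` -/
def EE (μ : Measure S) {n : ℕ} (U : Set S) (f : (Fin n → S) → ℝ) (x : Fin n → S) : ℝ :=
  ∫ y, f (mix U x y) ∂(Measure.pi fun _ : Fin n => nu μ U)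

theorem nu_prob (μ : Measure S) [IsProbabilityMeasure μ] {U : Set S} (hU : μ Uᶜ ≠ 0) :
    IsProbabilityMeasure (nu μ U) :=
  ProbabilityTheory.cond_isProbabilityMeasure hU

theorem compl_ne_zero {μ : Measure S} [IsProbabilityMeasure μ] {U : Set S} (hU : MeasurableSet U)
    (h : μ.real U ≤ 1 / 2) : μ Uᶜ ≠ 0 := by
  intro h0
  have h1 : μ.real Uᶜ = 0 := by simp [measureReal_def, h0]
  have h2 := probReal_compl_eq_one_sub (μ := μ) hU
  linarith

open Classical in
/-- single-letter near-orthogonality -/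
theorem single (μ : Measure S) [IsProbabilityMeasure μ] {W A B : Set S}
    (hW : MeasurableSet W) (hA : MeasurableSet A) (hB : MeasurableSet B)
    (hAB : Disjoint A B) {η : ℝ} (hη : 0 < η) (hAη : μ.real A ≤ η) (hBη : μ.real B ≤ η)
    (hWA : μ.real W + μ.real A ≤ 1 / 2) (hWB : μ.real W + μ.real B ≤ 1 / 2)
    {F G : S → ℝ} (hF : BM F) (hG : BM G) {φ γ : ℝ}
    (hF0 : ∀ a ∈ W, F a = 0) (hG0 : ∀ a ∈ W, G a = 0)
    (hFc : ∀ a, a ∉ W → a ∉ A → F a = φ) (hGc : ∀ a, a ∉ W → a ∉ B → G a = γ)
    (hFi : ∫ a, F a ∂μ = 0) (hGi : ∫ a, G a ∂μ = 0) :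
    |∫ a, F a * G a ∂μ| ≤ 2 * η * (∫ a, F a ^ 2 ∂μ + ∫ a, G a ^ 2 ∂μ) := by
  -- the bound for the constants
  have key : ∀ (A : Set S) (F : S → ℝ) (φ : ℝ), MeasurableSet A → μ.real A ≤ η →
      μ.real W + μ.real A ≤ 1 / 2 → BM F → (∀ a ∈ W, F a = 0) →
      (∀ a, a ∉ W → a ∉ A → F a = φ) → ∫ a, F a ∂μ = 0 → φ ^ 2 ≤ 4 * η * ∫ a, F a ^ 2 ∂μ := by
    intro A F φ hA hAη hWA hF hF0 hFc hFi
    set R : Set S := (W ∪ A)ᶜ with hR
    have hRm : MeasurableSet R := (hW.union hA).compl
    have hRge : 1 / 2 ≤ μ.real R := by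
      rw [hR, probReal_compl_eq_one_sub (hW.union hA)]
      have := measureReal_union_le (μ := μ) W A
      linarith
    -- `F - φ 1_R` integrates to `- φ μ(R)` and is supported in `A`
    set H : S → ℝ := fun a => F a - R.indicator (fun _ => φ) a with hH
    have hind : BM (R.indicator (fun _ => φ)) := by
      have := (BM.indicator hRm).const_mul φ
      refine ⟨measurable_const.indicator hRm, |φ|, fun x => ?_⟩
      by_cases hx : x ∈ R <;> simp [hx]
    have hHbm : BM H := hF.sub hind
    have hHi : ∫ a, H a ∂μ = - φ * μ.real R := by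
      rw [hH, integral_sub (hF.integrable μ) (hind.integrable μ), hFi,
        integral_indicator_const _ hRm]
      simp [mul_comm]
    -- consider the test `∫ (H + s φ 1_A)^2 ≥ 0`
    set s : ℝ := 1 / (2 * η) with hs
    have hspos : 0 < s := by positivity
    have hindA : BM (A.indicator (fun _ => (1:ℝ))) := BM.indicator hA
    have hHA : ∀ a, H a * A.indicator (fun _ => (1:ℝ)) a = H a ∨ True := fun _ => Or.inr trivial
    have hsupp : ∀ a, a ∉ A → H a = 0 := by
      intro a ha
      by_cases hw : a ∈ W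
      · have : a ∉ R := by simp [hR, hw]
        simp [hH, hF0 a hw, this]
      · have : a ∈ R := by simp [hR, hw, ha]
        simp [hH, hFc a hw ha, this]
    have hpos : 0 ≤ ∫ a, (H a + s * φ * A.indicator (fun _ => (1:ℝ)) a) ^ 2 ∂μ :=
      integral_nonneg (fun a => sq_nonneg _)
    have hexp : ∫ a, (H a + s * φ * A.indicator (fun _ => (1:ℝ)) a) ^ 2 ∂μ
        = ∫ a, H a ^ 2 ∂μ + 2 * s * φ * (∫ a, H a ∂μ) + s ^ 2 * φ ^ 2 * μ.real A := by
      have e1 : ∀ a, (H a + s * φ * A.indicator (fun _ => (1:ℝ)) a) ^ 2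
          = (H a ^ 2 + 2 * s * φ * H a) + s ^ 2 * φ ^ 2 * A.indicator (fun _ => (1:ℝ)) a := by
        intro a
        by_cases ha : a ∈ A
        · simp [ha]; ring
        · simp [ha, hsupp a ha]
      simp_rw [e1]
      rw [integral_add ((hHbm.sq.add (hHbm.const_mul _)).integrable μ)
        ((hindA.const_mul _).integrable μ),
        integral_add (hHbm.sq.integrable μ) ((hHbm.const_mul _).integrable μ),
        integral_const_mul, integral_const_mul, integral_indicator_const _ hA]
      simp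
    have hle : ∫ a, H a ^ 2 ∂μ ≤ ∫ a, F a ^ 2 ∂μ := by
      refine integral_mono (hHbm.sq.integrable μ) (hF.sq.integrable μ) (fun a => ?_)
      by_cases ha : a ∈ R
      · have h1 : a ∉ A := by
          intro h; exact ha (Or.inr h)
        have : H a = 0 := hsupp a h1
        show H a ^ 2 ≤ F a ^ 2
        rw [this]
        simpa using sq_nonneg (F a)
      · simp [hH, ha]
    rw [hexp, hHi] at hpos
    have h1 : 2 * s * φ ^ 2 * μ.real R ≤ ∫ a, F a ^ 2 ∂μ + s ^ 2 * φ ^ 2 * η := by
      have : s ^ 2 * φ ^ 2 * μ.real A ≤ s ^ 2 * φ ^ 2 * η :=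
        mul_le_mul_of_nonneg_left hAη (by positivity)
      nlinarith
    have h2 : 2 * s * φ ^ 2 * (1 / 2) ≤ 2 * s * φ ^ 2 * μ.real R :=
      mul_le_mul_of_nonneg_left hRge (by positivity)
    have h3 : s * η = 1 / 2 := by rw [hs]; field_simp
    have h4 : s ^ 2 * φ ^ 2 * η = s * φ ^ 2 * (1 / 2) := by
      rw [← h3]; ring
    have h5 : s * φ ^ 2 * (1 / 2) ≤ ∫ a, F a ^ 2 ∂μ := by linarith
    calc φ ^ 2 = 4 * η * (s * φ ^ 2 * (1 / 2)) := by
          rw [show 4 * η * (s * φ ^ 2 * (1 / 2)) = 2 * (s * η) * φ ^ 2 by ring, h3]; ring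
      _ ≤ _ := mul_le_mul_of_nonneg_left h5 (by positivity)
  have kF := key A F φ hA hAη hWA hF hF0 hFc hFi
  have kG := key B G γ hB hBη hWB hG hG0 hGc hGi
  have hid : ∀ a, F a * G a = (φ * G a + γ * F a) - (Wᶜ).indicator (fun _ => φ * γ) a := by
    intro a
    by_cases hw : a ∈ W
    · simp [hw, hF0 a hw, hG0 a hw]
    · have hw' : a ∈ Wᶜ := hw
      simp only [indicator_of_mem hw']
      by_cases ha : a ∈ A
      · have hb : a ∉ B := fun hb => (Set.disjoint_left.mp hAB) ha hb
        rw [hGc a hw hb]; ring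
      · rw [hFc a hw ha]; ring
  have hindW : BM ((Wᶜ).indicator (fun _ => φ * γ)) := by
    refine ⟨measurable_const.indicator hW.compl, |φ * γ|, fun x => ?_⟩
    by_cases hx : x ∈ Wᶜ
    · rw [indicator_of_mem hx]
    · rw [indicator_of_notMem hx, abs_zero]; positivity
  have hval : ∫ a, F a * G a ∂μ = - (φ * γ) * μ.real Wᶜ := by
    simp_rw [hid]
    rw [integral_sub (((hG.const_mul _).add (hF.const_mul _)).integrable μ) (hindW.integrable μ),
      integral_add ((hG.const_mul _).integrable μ) ((hF.const_mul _).integrable μ),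
      integral_const_mul, integral_const_mul, hFi, hGi, integral_indicator_const _ hW.compl]
    simp [mul_comm]
  rw [hval, abs_mul, abs_neg]
  have hle1 : |μ.real Wᶜ| ≤ 1 := by
    rw [abs_of_nonneg measureReal_nonneg]; exact measureReal_le_one
  have h1 : |φ * γ| ≤ (φ ^ 2 + γ ^ 2) / 2 := by
    rw [abs_le]; constructor <;> nlinarith [sq_nonneg (φ + γ), sq_nonneg (φ - γ)]
  calc |φ * γ| * |μ.real Wᶜ| ≤ |φ * γ| * 1 := mul_le_mul_of_nonneg_left hle1 (abs_nonneg _)
    _ ≤ (φ ^ 2 + γ ^ 2) / 2 := by linarith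
    _ ≤ _ := by linarith

/-! ### The product inequality -/

section product

variable {n : ℕ}

theorem cons_measurable : Measurable (fun p : S × (Fin n → S) => (Fin.cons p.1 p.2 : Fin (n+1) → S)) := by
  refine measurable_pi_iff.mpr (fun i => ?_)
  refine Fin.cases ?_ (fun j => ?_) i
  · simpa using measurable_fst
  · simp only [Fin.cons_succ]
    exact (measurable_pi_apply j).comp measurable_snd

theorem integral_cons (μ : Measure S) [IsProbabilityMeasure μ] {f : (Fin (n+1) → S) → ℝ}
    (hf : BM f) : ∫ x, f x ∂(Measure.pi fun _ : Fin (n+1) => μ)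
      = ∫ a, ∫ x, f (Fin.cons a x) ∂(Measure.pi fun _ : Fin n => μ) ∂μ := by
  have h := (measurePreserving_piFinSuccAbove (fun _ : Fin (n+1) => μ) 0).symm
  have h1 := h.integral_comp' (g := f)
  rw [← h1]
  have h2 : ∀ p : S × (Fin n → S),
      (MeasurableEquiv.piFinSuccAbove (fun _ : Fin (n+1) => S) 0).symm p = Fin.cons p.1 p.2 := by
    intro p
    simp [MeasurableEquiv.piFinSuccAbove, Fin.insertNthEquiv]
  simp_rw [h2]
  have h3 := (hf.comp (cons_measurable (S := S) (n := n))).integrable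
    (μ.prod (Measure.pi fun _ : Fin n => μ))
  rw [integral_prod _ h3]

open Classical in
/-- single-letter resampling of the first coordinate -/
def P1 (μ : Measure S) (W : Set S) (f : (Fin (n+1) → S) → ℝ) (a : S) (x : Fin n → S) : ℝ :=
  if a ∈ W then f (Fin.cons a x) else ∫ b, f (Fin.cons b x) ∂(nu μ W)

theorem mix_measurable {U : Set S} (hU : MeasurableSet U) :
    Measurable (fun p : (Fin n → S) × (Fin n → S) => mix U p.1 p.2) := by
  classical
  refine measurable_pi_iff.mpr (fun t => ?_)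
  unfold mix
  refine Measurable.ite ?_ ((measurable_pi_apply t).comp measurable_fst)
    ((measurable_pi_apply t).comp measurable_snd)
  exact ((measurable_pi_apply t).comp measurable_fst) hU

theorem BM.EE {μ : Measure S} [IsProbabilityMeasure μ] {U : Set S} (hU : MeasurableSet U)
    (hU0 : μ Uᶜ ≠ 0) {f : (Fin n → S) → ℝ} (hf : BM f) : BM (EE μ U f) := by
  have := nu_prob μ hU0
  exact (hf.comp (mix_measurable hU)).integral_right _

theorem BM.P1 {μ : Measure S} [IsProbabilityMeasure μ] {W : Set S} (hW : MeasurableSet W)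
    (hW0 : μ Wᶜ ≠ 0) {f : (Fin (n+1) → S) → ℝ} (hf : BM f) :
    BM (fun p : S × (Fin n → S) => P1 μ W f p.1 p.2) := by
  classical
  have := nu_prob μ hW0
  have h1 : BM (fun p : S × (Fin n → S) => f (Fin.cons p.1 p.2)) := hf.comp cons_measurable
  have h2 : BM (fun x : Fin n → S => ∫ b, f (Fin.cons b x) ∂(nu μ W)) := h1.integral_left _
  have h3 : BM (fun p : S × (Fin n → S) => ∫ b, f (Fin.cons b p.2) ∂(nu μ W)) :=
    h2.comp measurable_snd
  have h4 : MeasurableSet {p : S × (Fin n → S) | p.1 ∈ W} := measurable_fst hW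
  have := BM.ite h1 h3 h4
  unfold BorsukLib.P1
  simpa using this

omit [MeasurableSpace S] in
theorem mix_cons {U : Set S} (a b : S) (x y : Fin n → S) [Decidable (a ∈ U)] :
    mix U (Fin.cons a x) (Fin.cons b y) = Fin.cons (if a ∈ U then a else b) (mix U x y) := by
  classical
  funext t
  refine Fin.cases ?_ (fun j => ?_) t
  · simp [mix]
  · simp [mix]

theorem EE_cons (μ : Measure S) [IsProbabilityMeasure μ] {W : Set S} (hW : MeasurableSet W)
    (hW0 : μ Wᶜ ≠ 0) {f : (Fin (n+1) → S) → ℝ} (hf : BM f) (a : S) (x : Fin n → S) :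
    EE μ W f (Fin.cons a x) = EE μ W (P1 μ W f a) x := by
  classical
  have := nu_prob μ hW0
  have h0 : BM (fun y : Fin (n+1) → S => f (mix W (Fin.cons a x) y)) :=
    hf.comp ((mix_measurable hW).comp (measurable_const.prodMk measurable_id))
  unfold EE
  rw [integral_cons _ h0]
  simp_rw [mix_cons]
  by_cases ha : a ∈ W
  · simp [ha, P1]
  · simp only [ha, if_false, P1]
    rw [integral_integral_swap]
    have h1 : BM (fun p : S × (Fin n → S) => f (Fin.cons p.1 (mix W x p.2))) := by
      have hg : Measurable (fun p : S × (Fin n → S) => (p.1, mix W x p.2)) :=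
        measurable_fst.prodMk ((mix_measurable hW).comp (measurable_const.prodMk measurable_snd))
      exact (hf.comp cons_measurable).comp hg
    exact h1.integrable _

open Classical in
/-- orthogonal splitting in the first coordinate, for a fixed value of the others -/
theorem split1 (μ : Measure S) [IsProbabilityMeasure μ] {W : Set S}
    (hW : MeasurableSet W) (hW0 : μ Wᶜ ≠ 0) {F G : S → ℝ} (hF : BM F) (hG : BM G) :
    ∫ a, F a * G a ∂μ
      = ∫ a, (if a ∈ W then F a else ∫ b, F b ∂(nu μ W)) * (if a ∈ W then G a else ∫ b, G b ∂(nu μ W)) ∂μ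
        + ∫ a, (F a - (if a ∈ W then F a else ∫ b, F b ∂(nu μ W)))
            * (G a - (if a ∈ W then G a else ∫ b, G b ∂(nu μ W))) ∂μ := by
  have hprob := nu_prob μ hW0
  have hc : μ.real Wᶜ ≠ 0 := by
    rw [measureReal_def]
    exact (ENNReal.toReal_pos hW0 (measure_ne_top _ _)).ne'
  have hnu : ∀ {F : S → ℝ}, BM F → ∫ a in Wᶜ, F a ∂μ = (∫ b, F b ∂(nu μ W)) * μ.real Wᶜ := by
    intro F hF
    unfold nu
    rw [ProbabilityTheory.cond, integral_smul_measure, ENNReal.toReal_inv, smul_eq_mul,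
      ← measureReal_def]
    field_simp
  set m := ∫ b, F b ∂(nu μ W) with hm
  set m' := ∫ b, G b ∂(nu μ W) with hm'
  have i1 : BM (fun a => (if a ∈ W then F a else m)) := BM.ite hF (BM.const m) hW
  have i2 : BM (fun a => (if a ∈ W then G a else m')) := BM.ite hG (BM.const m') hW
  -- cross terms
  have cross : ∀ (F : S → ℝ) (m c : ℝ), BM F → m = ∫ b, F b ∂(nu μ W) →
      ∫ a, c * (F a - (if a ∈ W then F a else m)) ∂μ = 0 := by
    intro F m c hF hm
    rw [integral_const_mul]
    have e1 : ∫ a, (F a - (if a ∈ W then F a else m)) ∂μ = ∫ a in Wᶜ, (F a - m) ∂μ := by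
      rw [← integral_indicator hW.compl]
      congr 1
      funext a
      by_cases ha : a ∈ W
      · simp [ha]
      · simp [ha]
    rw [e1, integral_sub ((hF.integrable μ).integrableOn) ((BM.const m).integrable _), hnu hF, ← hm]
    simp [mul_comm]
  have e : ∀ a, F a * G a = ((if a ∈ W then F a else m) * (if a ∈ W then G a else m')
      + (F a - (if a ∈ W then F a else m)) * (G a - (if a ∈ W then G a else m')))
      + (m * (G a - (if a ∈ W then G a else m')) + m' * (F a - (if a ∈ W then F a else m))) := by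
    intro a
    by_cases ha : a ∈ W
    · simp [ha]
    · simp [ha]; ring
  simp_rw [e]
  rw [integral_add, integral_add, integral_add, cross G m' m hG hm', cross F m m' hF hm]
  · ring
  · exact ((hG.sub i2).const_mul m).integrable μ
  · exact ((hF.sub i1).const_mul m').integrable μ
  · exact (i1.mul i2).integrable μ
  · exact ((hF.sub i1).mul (hG.sub i2)).integrable μ
  · exact ((i1.mul i2).add ((hF.sub i1).mul (hG.sub i2))).integrable μ
  · exact (((hG.sub i2).const_mul m).add ((hF.sub i1).const_mul m')).integrable μ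

/-- **Near-orthogonality on the product space** -/
theorem prod_ineq (μ : Measure S) [IsProbabilityMeasure μ] {W A B : Set S}
    (hW : MeasurableSet W) (hA : MeasurableSet A) (hB : MeasurableSet B)
    (hAB : Disjoint A B) {η : ℝ} (hη : 0 < η) (hAη : μ.real A ≤ η) (hBη : μ.real B ≤ η)
    (hWA : μ.real W + μ.real A ≤ 1 / 2) (hWB : μ.real W + μ.real B ≤ 1 / 2) :
    ∀ (n : ℕ) (f g : (Fin n → S) → ℝ), BM f → BM g → Dep (W ∪ A) f → Dep (W ∪ B) g →
      (∀ x, EE μ W f x = 0) → (∀ x, EE μ W g x = 0) →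
      |∫ x, f x * g x ∂(Measure.pi fun _ => μ)|
        ≤ 2 * η * (∫ x, f x ^ 2 ∂(Measure.pi fun _ => μ) + ∫ x, g x ^ 2 ∂(Measure.pi fun _ => μ)) := by
  classical
  have hW0 : μ Wᶜ ≠ 0 := by
    refine compl_ne_zero hW ?_
    have : 0 ≤ μ.real A := measureReal_nonneg
    linarith
  have hprob := nu_prob μ hW0
  intro n
  induction n with
  | zero =>
    intro f g hf hg _ _ hEf _
    have hf0 : ∀ x, f x = 0 := by
      intro x
      have h1 := hEf x
      unfold EE at h1
      have h2 : ∀ y : Fin 0 → S, f (mix W x y) = f x := fun y => by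
        congr 1; exact Subsingleton.elim _ _
      simp_rw [h2] at h1
      simpa using h1
    simp only [hf0, zero_mul, integral_zero, abs_zero]
    have : 0 ≤ ∫ x, g x ^ 2 ∂(Measure.pi fun _ : Fin 0 => μ) := integral_nonneg (fun _ => sq_nonneg _)
    have h3 : ∫ x, (0:ℝ) ^ 2 ∂(Measure.pi fun _ : Fin 0 => μ) = 0 := by simp
    positivity
  | succ n ih =>
    intro f g hf hg hDf hDg hEf hEg
    set P : Measure (Fin n → S) := Measure.pi fun _ => μ with hP
    -- the functions of two variables
    have bF : BM (fun p : S × (Fin n → S) => f (Fin.cons p.1 p.2)) := hf.comp cons_measurable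
    have bG : BM (fun p : S × (Fin n → S) => g (Fin.cons p.1 p.2)) := hg.comp cons_measurable
    have bF1 : BM (fun p : S × (Fin n → S) => P1 μ W f p.1 p.2) := BM.P1 hW hW0 hf
    have bG1 : BM (fun p : S × (Fin n → S) => P1 μ W g p.1 p.2) := BM.P1 hW hW0 hg
    have bF2 := bF.sub bF1
    have bG2 := bG.sub bG1
    have secL : ∀ {h : S × (Fin n → S) → ℝ}, BM h → ∀ x, BM (fun a => h (a, x)) :=
      fun hh x => hh.comp (measurable_id.prodMk measurable_const)
    have secR : ∀ {h : S × (Fin n → S) → ℝ}, BM h → ∀ a, BM (fun x => h (a, x)) :=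
      fun hh a => hh.comp (measurable_const.prodMk measurable_id)
    -- splitting of a product
    have splitting : ∀ (f g : (Fin (n+1) → S) → ℝ), BM f → BM g → ∀ x : Fin n → S,
        ∫ a, f (Fin.cons a x) * g (Fin.cons a x) ∂μ
          = ∫ a, P1 μ W f a x * P1 μ W g a x ∂μ
            + ∫ a, (f (Fin.cons a x) - P1 μ W f a x) * (g (Fin.cons a x) - P1 μ W g a x) ∂μ := by
      intro f g hf hg x
      have := split1 μ hW hW0 (F := fun a => f (Fin.cons a x)) (G := fun a => g (Fin.cons a x))
        (secL (hf.comp cons_measurable) x) (secL (hg.comp cons_measurable) x)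
      simpa [P1] using this
    -- the product integral as an iterated integral
    have iter : ∀ (f g : (Fin (n+1) → S) → ℝ), BM f → BM g →
        ∫ x, f x * g x ∂(Measure.pi fun _ : Fin (n+1) => μ)
          = (∫ a, ∫ x, P1 μ W f a x * P1 μ W g a x ∂P ∂μ)
            + ∫ x, ∫ a, (f (Fin.cons a x) - P1 μ W f a x) * (g (Fin.cons a x) - P1 μ W g a x) ∂μ ∂P := by
      intro f g hf hg
      have b1 : BM (fun p : S × (Fin n → S) => f (Fin.cons p.1 p.2)) := hf.comp cons_measurable
      have b2 : BM (fun p : S × (Fin n → S) => g (Fin.cons p.1 p.2)) := hg.comp cons_measurable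
      have b3 : BM (fun p : S × (Fin n → S) => P1 μ W f p.1 p.2) := BM.P1 hW hW0 hf
      have b4 : BM (fun p : S × (Fin n → S) => P1 μ W g p.1 p.2) := BM.P1 hW hW0 hg
      rw [integral_cons μ (hf.mul hg)]
      rw [integral_integral_swap ((b1.mul b2).integrable (μ.prod P))]
      simp_rw [splitting f g hf hg]
      rw [integral_add ((b3.mul b4).integral_left μ |>.integrable P)
        (((b1.sub b3).mul (b2.sub b4)).integral_left μ |>.integrable P)]
      congr 1
      rw [integral_integral_swap]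
      exact ((b3.mul b4).comp measurable_swap).integrable (P.prod μ)
    rw [iter f g hf hg]
    have sqf : ∫ x, f x ^ 2 ∂(Measure.pi fun _ : Fin (n+1) => μ)
        = (∫ a, ∫ x, P1 μ W f a x ^ 2 ∂P ∂μ)
          + ∫ x, ∫ a, (f (Fin.cons a x) - P1 μ W f a x) ^ 2 ∂μ ∂P := by
      have := iter f f hf hf
      simpa [pow_two] using this
    have sqg : ∫ x, g x ^ 2 ∂(Measure.pi fun _ : Fin (n+1) => μ)
        = (∫ a, ∫ x, P1 μ W g a x ^ 2 ∂P ∂μ)
          + ∫ x, ∫ a, (g (Fin.cons a x) - P1 μ W g a x) ^ 2 ∂μ ∂P := by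
      have := iter g g hg hg
      simpa [pow_two] using this
    -- part 1: induction hypothesis
    have part1 : |∫ a, ∫ x, P1 μ W f a x * P1 μ W g a x ∂P ∂μ|
        ≤ 2 * η * ((∫ a, ∫ x, P1 μ W f a x ^ 2 ∂P ∂μ) + ∫ a, ∫ x, P1 μ W g a x ^ 2 ∂P ∂μ) := by
      have hpt : ∀ a, |∫ x, P1 μ W f a x * P1 μ W g a x ∂P|
          ≤ 2 * η * ((∫ x, P1 μ W f a x ^ 2 ∂P) + ∫ x, P1 μ W g a x ^ 2 ∂P) := by
        intro a
        have depP : ∀ (C : Set S) (f : (Fin (n+1) → S) → ℝ), Dep C f → Dep C (P1 μ W f a) := by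
          intro C f hD x y hxy
          have hb : ∀ b, f (Fin.cons b x) = f (Fin.cons b y) := by
            intro b
            apply hD
            intro t
            refine Fin.cases ?_ (fun j => ?_) t
            · left; simp
            · simpa using hxy j
          simp only [P1, hb]
        refine ih (P1 μ W f a) (P1 μ W g a) (secR bF1 a) (secR bG1 a) (depP _ f hDf) (depP _ g hDg) ?_ ?_
        · intro x
          rw [← EE_cons μ hW hW0 hf]; exact hEf _
        · intro x
          rw [← EE_cons μ hW hW0 hg]; exact hEg _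
      have j1 := (bF1.mul bG1).integral_right P
      have j2 := bF1.sq.integral_right P
      have j3 := bG1.sq.integral_right P
      calc |∫ a, ∫ x, P1 μ W f a x * P1 μ W g a x ∂P ∂μ|
          ≤ ∫ a, |∫ x, P1 μ W f a x * P1 μ W g a x ∂P| ∂μ := abs_integral_le_integral_abs
        _ ≤ ∫ a, 2 * η * ((∫ x, P1 μ W f a x ^ 2 ∂P) + ∫ x, P1 μ W g a x ^ 2 ∂P) ∂μ :=
            integral_mono (j1.abs.integrable μ) (((j2.add j3).const_mul _).integrable μ) hpt
        _ = _ := by
            rw [integral_const_mul, integral_add (j2.integrable μ) (j3.integrable μ)]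
    -- part 2: single letter
    have part2 : |∫ x, ∫ a, (f (Fin.cons a x) - P1 μ W f a x) * (g (Fin.cons a x) - P1 μ W g a x) ∂μ ∂P|
        ≤ 2 * η * ((∫ x, ∫ a, (f (Fin.cons a x) - P1 μ W f a x) ^ 2 ∂μ ∂P)
          + ∫ x, ∫ a, (g (Fin.cons a x) - P1 μ W g a x) ^ 2 ∂μ ∂P) := by
      have zeroint : ∀ (f : (Fin (n+1) → S) → ℝ), BM f → ∀ x : Fin n → S,
          ∫ a, (f (Fin.cons a x) - P1 μ W f a x) ∂μ = 0 := by
        intro f hf x
        have b1 : BM (fun p : S × (Fin n → S) => f (Fin.cons p.1 p.2)) := hf.comp cons_measurable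
        have b3 : BM (fun p : S × (Fin n → S) => P1 μ W f p.1 p.2) := BM.P1 hW hW0 hf
        have := split1 μ hW hW0 (F := fun a => f (Fin.cons a x)) (G := fun _ => (1:ℝ))
          (secL b1 x) (BM.const 1)
        have e1 : ∀ a, (if a ∈ W then (1:ℝ) else ∫ b, (1:ℝ) ∂(nu μ W)) = 1 := by
          intro a; simp
        simp only [mul_one, e1, sub_self, mul_zero, integral_zero, add_zero] at this
        rw [integral_sub ((secL b1 x).integrable μ) ((secL b3 x).integrable μ)]
        simp only [P1]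
        linarith
      have offc : ∀ (C : Set S) (f : (Fin (n+1) → S) → ℝ), Dep (W ∪ C) f → ∀ x : Fin n → S,
          ∀ a a', a ∉ W → a ∉ C → a' ∉ W → a' ∉ C → f (Fin.cons a x) - P1 μ W f a x
            = f (Fin.cons a' x) - P1 μ W f a' x := by
        intro C f hD x a a' h1 h2 h3 h4
        have : f (Fin.cons a x) = f (Fin.cons a' x) := by
          apply hD
          intro t
          refine Fin.cases ?_ (fun j => ?_) t
          · right; simp [h1, h2, h3, h4]
          · left; simp
        simp only [P1, h1, h3, if_false, this]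
      have exphi : ∀ (C : Set S) (f : (Fin (n+1) → S) → ℝ), Dep (W ∪ C) f → ∀ x : Fin n → S,
          ∃ φ : ℝ, ∀ a, a ∉ W → a ∉ C → f (Fin.cons a x) - P1 μ W f a x = φ := by
        intro C f hD x
        by_cases hne : ∃ a, a ∉ W ∧ a ∉ C
        · obtain ⟨a', h3, h4⟩ := hne
          exact ⟨_, fun a h1 h2 => offc C f hD x a a' h1 h2 h3 h4⟩
        · exact ⟨0, fun a h1 h2 => absurd ⟨a, h1, h2⟩ hne⟩
      have hpt : ∀ x, |∫ a, (f (Fin.cons a x) - P1 μ W f a x) * (g (Fin.cons a x) - P1 μ W g a x) ∂μ|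
          ≤ 2 * η * ((∫ a, (f (Fin.cons a x) - P1 μ W f a x) ^ 2 ∂μ)
            + ∫ a, (g (Fin.cons a x) - P1 μ W g a x) ^ 2 ∂μ) := by
        intro x
        obtain ⟨φ, hφ⟩ := exphi A f hDf x
        obtain ⟨γ, hγ⟩ := exphi B g hDg x
        refine single μ hW hA hB hAB hη hAη hBη hWA hWB (secL bF2 x) (secL bG2 x) ?_ ?_ hφ hγ
          (zeroint f hf x) (zeroint g hg x)
        · intro a ha; simp [P1, ha]
        · intro a ha; simp [P1, ha]
      have j1 := (bF2.mul bG2).integral_left μ
      have j2 := bF2.sq.integral_left μ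
      have j3 := bG2.sq.integral_left μ
      calc |∫ x, ∫ a, (f (Fin.cons a x) - P1 μ W f a x) * (g (Fin.cons a x) - P1 μ W g a x) ∂μ ∂P|
          ≤ ∫ x, |∫ a, (f (Fin.cons a x) - P1 μ W f a x) * (g (Fin.cons a x) - P1 μ W g a x) ∂μ| ∂P :=
            abs_integral_le_integral_abs
        _ ≤ ∫ x, 2 * η * ((∫ a, (f (Fin.cons a x) - P1 μ W f a x) ^ 2 ∂μ)
            + ∫ a, (g (Fin.cons a x) - P1 μ W g a x) ^ 2 ∂μ) ∂P :=
            integral_mono (j1.abs.integrable P) (((j2.add j3).const_mul _).integrable P) hpt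
        _ = _ := by
            rw [integral_const_mul, integral_add (j2.integrable P) (j3.integrable P)]
    rw [sqf, sqg]
    refine (abs_add_le _ _).trans ?_
    linarith

end product

end BorsukLib
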