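import Mathlib

/-!
# Random Borsuk graphs: definitions
-/

open MeasureTheory

noncomputable section

namespace BorsukLib

/-- Euclidean space `ℝ^{d+1}`. -/
abbrev E (d : ℕ) := EuclideanSpace ℝ (Fin (d + 1))

/-- The unit sphere `S^d ⊂ ℝ^{d+1}`. -/
abbrev Sph (d : ℕ) := Metric.sphere (0 : E d) 1

/-- The uniform distribution on `S^d`: normalised surface measure. -/
def unif (d : ℕ) : Measure (Sph d) :=
  ((volume : Measure (E d)).toSphere Set.univ)⁻¹ • (volume : Measure (E d)).toSphere

/-- Geodesic (angular) distance `∠ u 0 v ∈ [0, π]`. -/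
def gdist {d : ℕ} (u v : Sph d) : ℝ := InnerProductGeometry.angle (u : E d) (v : E d)

/-- The Borsuk graph with parameters `d, α`: vertex set `S^d`, and `u ∼ v` iff `dist(u,v) > π - α`
(and `u ≠ v`, which is automatic when `α ≤ π`). -/
def borsukGraph (d : ℕ) (α : ℝ) : SimpleGraph (Sph d) where
  Adj u v := u ≠ v ∧ Real.pi - α < gdist u v
  symm := ⟨fun u v h => ⟨h.1.symm, by
    unfold gdist at *
    rw [InnerProductGeometry.angle_comm]
    exact h.2⟩⟩
  loopless := ⟨fun _ h => h.1 rfl⟩

/-- The graph `G(n, α)` on a sample `X = (X_1, …, X_n)` of points of `S^d`: `i ∼ j` iff `X_i ∼ X_j`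
in the Borsuk graph. -/
def sampleGraph {d n : ℕ} (α : ℝ) (X : Fin n → Sph d) : SimpleGraph (Fin n) :=
  (borsukGraph d α).comap X

/-- The law of `n` independent uniform points of `S^d`. -/
def sampleLaw (d n : ℕ) : Measure (Fin n → Sph d) := Measure.pi fun _ => unif d

/-- Slab around the hyperplane `w^⊥`. -/
def slab {d : ℕ} (w : E d) (r : ℝ) : Set (Sph d) := {x | |inner ℝ w (x : E d)| ≤ r}

instance {d : ℕ} : IsProbabilityMeasure (unif d) := by
  refine ⟨?_⟩
  unfold unif
  rw [Measure.smul_apply, smul_eq_mul]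
  refine ENNReal.inv_mul_cancel ?_ (measure_ne_top _ _)
  rw [Measure.measure_univ_ne_zero]
  exact Measure.toSphere_ne_zero _

instance {d n : ℕ} : IsProbabilityMeasure (sampleLaw d n) := by
  unfold sampleLaw; infer_instance

/-- a hyperplane section of the sphere is null -/
theorem unif_hyperplane {d : ℕ} {w : E d} (hw : w ≠ 0) : unif d {x : Sph d | inner ℝ w (x : E d) = 0} = 0 := by
  have hm : MeasurableSet {x : Sph d | inner ℝ w (x : E d) = 0} := by
    have : Measurable fun x : Sph d => inner ℝ w (x : E d) := by fun_prop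
    exact this (measurableSet_singleton 0)
  unfold unif
  rw [Measure.smul_apply, smul_eq_mul]
  have h0 : (volume : Measure (E d)).toSphere {x : Sph d | inner ℝ w (x : E d) = 0} = 0 := by
    rw [Measure.toSphere_apply' _ hm]
    have h1 : (volume : Measure (E d)) ((ℝ ∙ w)ᗮ : Submodule ℝ (E d)) = 0 := by
      refine Measure.addHaar_submodule _ _ ?_
      intro htop
      have : w ∈ ((ℝ ∙ w)ᗮ : Submodule ℝ (E d)) := by rw [htop]; trivial
      rw [Submodule.mem_orthogonal_singleton_iff_inner_right] at this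
      exact hw (inner_self_eq_zero.mp this)
    rw [mul_eq_zero]; right
    refine measure_mono_null ?_ h1
    rintro _ ⟨t, _, _, ⟨x, hx, rfl⟩, rfl⟩
    show t • (x : E d) ∈ ((ℝ ∙ w)ᗮ : Submodule ℝ (E d))
    rw [Submodule.mem_orthogonal_singleton_iff_inner_right, inner_smul_right]
    have : inner ℝ w (x : E d) = 0 := hx
    rw [this, mul_zero]
  rw [h0, mul_zero]

theorem slab_measurable {d : ℕ} (w : E d) (r : ℝ) : MeasurableSet (slab w r) := by
  have : Measurable fun x : Sph d => |inner ℝ w (x : E d)| := by fun_prop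
  exact this measurableSet_Iic

/-- slabs are small -/
theorem slab_small {d : ℕ} {w : E d} (hw : w ≠ 0) {δ : ℝ} (hδ : 0 < δ) :
    ∃ s₀ > 0, ∀ s ≤ s₀, (unif d).real (slab w s) ≤ δ := by
  have hlim : Filter.Tendsto (fun n : ℕ => (unif d) (slab w (1 / ((n:ℝ) + 1)))) Filter.atTop
      (nhds (unif d (⋂ n : ℕ, slab w (1 / ((n:ℝ) + 1))))) := by
    refine tendsto_measure_iInter_atTop (fun n => (slab_measurable _ _).nullMeasurableSet) ?_
      ⟨0, measure_ne_top _ _⟩
    intro a b hab x hx
    have hx' : |inner ℝ w (x : E d)| ≤ 1 / ((b:ℝ) + 1) := hx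
    refine le_trans hx' ?_
    apply one_div_le_one_div_of_le
    · positivity
    · have : (a:ℝ) ≤ b := by exact_mod_cast hab
      linarith
  have hint : (⋂ n : ℕ, slab w (1 / ((n:ℝ) + 1))) = {x : Sph d | inner ℝ w (x : E d) = 0} := by
    ext x
    constructor
    · intro hx
      rw [Set.mem_iInter] at hx
      have h1 : |inner ℝ w (x : E d)| ≤ 0 := by
        refine ge_of_tendsto' (tendsto_one_div_add_atTop_nhds_zero_nat (𝕜 := ℝ)) (fun n => hx n)
      exact abs_eq_zero.mp (le_antisymm h1 (abs_nonneg _))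
    · intro hx
      rw [Set.mem_iInter]
      intro n
      have hx' : inner ℝ w (x : E d) = 0 := hx
      show |inner ℝ w (x : E d)| ≤ _
      rw [hx', abs_zero]; positivity
  rw [hint, unif_hyperplane hw] at hlim
  have hev := hlim.eventually (gt_mem_nhds (ENNReal.ofReal_pos.mpr hδ))
  obtain ⟨n, hn⟩ := hev.exists
  refine ⟨1 / ((n:ℝ) + 1), by positivity, fun s hs => ?_⟩
  have hsub : slab w s ⊆ slab w (1 / ((n:ℝ) + 1)) := fun x hx => le_trans (show |_| ≤ s from hx) hs
  calc (unif d).real (slab w s) ≤ (unif d).real (slab w (1 / ((n:ℝ) + 1))) :=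
        measureReal_mono hsub
    _ ≤ δ := by
        rw [measureReal_def]
        exact ENNReal.toReal_le_of_le_ofReal hδ.le hn.le

end BorsukLib
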