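import Pool.Agent.Lib.Helper95.Borsuk.Color

/-!
# The dense regime: `α` bounded below
-/

open MeasureTheory Set Filter Topology

noncomputable section

namespace BorsukLib

variable {d n : ℕ}

theorem gdist_continuous : Continuous fun p : Sph d × Sph d => gdist p.1 p.2 := by
  unfold gdist InnerProductGeometry.angle
  refine Real.continuous_arccos.comp ?_
  have h1 : ∀ u : Sph d, ‖(u : E d)‖ = 1 := fun u => by simp
  simp only [h1, mul_one, div_one]
  fun_prop

theorem gdist_self (u : Sph d) : gdist u u = 0 := by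
  unfold gdist
  refine InnerProductGeometry.angle_self ?_
  intro h
  have : ‖(u : E d)‖ = 1 := by simp
  rw [h] at this
  simp at this

theorem sample_mono {α α' : ℝ} (h : α ≤ α') (X : Fin n → Sph d) :
    sampleGraph α X ≤ sampleGraph α' X := by
  intro i j hij
  exact ⟨hij.1, lt_of_le_of_lt (by linarith) hij.2⟩

theorem borsuk_mono {α α' : ℝ} (h : α ≤ α') : borsukGraph d α ≤ borsukGraph d α' := by
  intro i j hij
  exact ⟨hij.1, lt_of_le_of_lt (by linarith) hij.2⟩

theorem sample_colorable_of_borsuk {α : ℝ} {k : ℕ} (h : (borsukGraph d α).Colorable k)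
    (X : Fin n → Sph d) : (sampleGraph α X).Colorable k :=
  h.of_hom (SimpleGraph.Hom.comap X (borsukGraph d α))

theorem gdist_open {b : ℝ} {u v : Sph d} (huv : b < gdist u v) :
    ∃ δ > (0:ℝ), ∀ x ∈ Metric.ball u δ, ∀ y ∈ Metric.ball v δ, b < gdist x y := by
  have hop : IsOpen {p : Sph d × Sph d | b < gdist p.1 p.2} :=
    isOpen_lt continuous_const gdist_continuous
  rw [Metric.isOpen_iff] at hop
  have h2 : ∃ ε > 0, Metric.ball (u, v) ε ⊆ {p : Sph d × Sph d | b < gdist p.1 p.2} :=
    hop (u, v) huv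
  obtain ⟨δ, hδ, hball⟩ := h2
  refine ⟨δ, hδ, fun x hx y hy => ?_⟩
  have h3 : (x, y) ∈ Metric.ball (u, v) δ := by
    rw [Metric.mem_ball] at hx hy ⊢
    rw [Prod.dist_eq]
    exact max_lt hx hy
  have h4 := hball h3
  rw [Set.mem_ofPred_eq] at h4
  exact h4

/-- Dense samples see a finite non-`k`-colourable subgraph. -/
theorem dense_not_colorable {a : ℝ} (ha1 : a ≤ 1) {k : ℕ}
    (hk : ¬ (borsukGraph d a).Colorable k) {ε : ℝ} (hε : 0 < ε) :
    ∃ n₀ : ℕ, ∀ n ≥ n₀, (sampleLaw d n).real (colEv d n a k) ≤ ε := by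
  classical
  -- a finite subgraph which is not colourable
  obtain ⟨G', hfin, hG'⟩ : ∃ G' : (borsukGraph d a).Subgraph, G'.verts.Finite ∧
      IsEmpty (G'.coe →g (⊤ : SimpleGraph (Fin k))) := by
    by_contra hcon
    push Not at hcon
    refine hk ?_
    have h : ∀ G' : (borsukGraph d a).Subgraph, G'.verts.Finite →
        G'.coe →g (⊤ : SimpleGraph (Fin k)) := by
      intro G' hG'
      have h1 := hcon G' hG'
      exact Classical.choice h1
    obtain ⟨f⟩ := SimpleGraph.nonempty_hom_of_forall_finite_subgraph_hom h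
    exact ⟨f⟩
  -- a common radius
  have hδ : ∃ δ > (0:ℝ), ∀ u ∈ G'.verts, ∀ v ∈ G'.verts, Real.pi - a < gdist u v →
      ∀ x ∈ Metric.ball u δ, ∀ y ∈ Metric.ball v δ, Real.pi - a < gdist x y := by
    have h1 : ∀ u ∈ G'.verts, ∀ v ∈ G'.verts, ∀ᶠ δ in 𝓝[>] (0:ℝ), Real.pi - a < gdist u v →
        ∀ x ∈ Metric.ball u δ, ∀ y ∈ Metric.ball v δ, Real.pi - a < gdist x y := by
      intro u _ v _
      by_cases huv : Real.pi - a < gdist u v
      · obtain ⟨δ, hδ, hball⟩ := gdist_open huv
        filter_upwards [Ioo_mem_nhdsGT hδ] with δ' hδ' _ x hx y hy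
        exact hball x (Metric.ball_subset_ball hδ'.2.le hx) y (Metric.ball_subset_ball hδ'.2.le hy)
      · exact Eventually.of_forall fun δ h => absurd h huv
    have h2 : ∀ᶠ δ in 𝓝[>] (0:ℝ), ∀ u ∈ G'.verts, ∀ v ∈ G'.verts, Real.pi - a < gdist u v →
        ∀ x ∈ Metric.ball u δ, ∀ y ∈ Metric.ball v δ, Real.pi - a < gdist x y := by
      rw [eventually_all_finite hfin]
      intro u hu
      rw [eventually_all_finite hfin]
      intro v hv
      exact h1 u hu v hv
    obtain ⟨δ, h3, h4⟩ := (h2.and self_mem_nhdsWithin).exists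
    exact ⟨δ, h4, h3⟩
  obtain ⟨δ, hδpos, hδ⟩ := hδ
  -- on the event that all balls are hit, the sample graph is not colourable
  have hsub : ∀ n, colEv d n a k ⊆ ⋃ u ∈ hfin.toFinset, {X : Fin n → Sph d | ∀ t, X t ∈ (Metric.ball u δ)ᶜ} := by
    intro n X hX
    by_contra hcon
    simp only [mem_iUnion, not_exists, Set.Finite.mem_toFinset, mem_ofPred_eq, mem_compl_iff] at hcon
    have hhit : ∀ u : G'.verts, ∃ t, X t ∈ Metric.ball (u : Sph d) δ := by
      intro u
      have := hcon u u.2
      push Not at this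
      exact this
    choose t ht using hhit
    obtain ⟨c⟩ := hX
    refine hG'.elim ?_
    refine ⟨fun u => c (t u), ?_⟩
    intro u v huv
    have h1 : G'.Adj u v := huv
    have h2 : (borsukGraph d a).Adj u v := G'.adj_sub h1
    have h3 : Real.pi - a < gdist (X (t u)) (X (t v)) := hδ u u.2 v v.2 h2.2 _ (ht u) _ (ht v)
    have h4 : X (t u) ≠ X (t v) := by
      intro h
      rw [h, gdist_self] at h3
      have := Real.pi_gt_three
      linarith
    have h5 : (sampleGraph a X).Adj (t u) (t v) := ⟨h4, h3⟩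
    have h6 := c.valid h5
    simpa using h6
  -- probability of missing a ball
  have hq : ∀ u : Sph d, (unif d).real (Metric.ball u δ)ᶜ < 1 := by
    intro u
    rw [probReal_compl_eq_one_sub Metric.isOpen_ball.measurableSet]
    have : 0 < (unif d).real (Metric.ball u δ) := by
      rw [measureReal_def]
      refine ENNReal.toReal_pos ?_ (measure_ne_top _ _)
      unfold unif
      rw [Measure.smul_apply, smul_eq_mul]
      refine mul_ne_zero ?_ ?_
      · exact ENNReal.inv_ne_zero.mpr (measure_ne_top _ _)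
      · exact (Metric.isOpen_ball.measure_pos _ ⟨u, Metric.mem_ball_self hδpos⟩).ne'
    linarith
  have hbound : ∀ n, (sampleLaw d n).real (colEv d n a k)
      ≤ ∑ u ∈ hfin.toFinset, ((unif d).real (Metric.ball u δ)ᶜ) ^ n := by
    intro n
    calc (sampleLaw d n).real (colEv d n a k)
        ≤ (sampleLaw d n).real (⋃ u ∈ hfin.toFinset, {X : Fin n → Sph d | ∀ t, X t ∈ (Metric.ball u δ)ᶜ}) :=
          measureReal_mono (hsub n) (measure_ne_top _ _)
      _ ≤ ∑ u ∈ hfin.toFinset, (sampleLaw d n).real {X : Fin n → Sph d | ∀ t, X t ∈ (Metric.ball u δ)ᶜ} :=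
          measureReal_biUnion_finset_le _ _
      _ = _ := by
          refine Finset.sum_congr rfl (fun u _ => ?_)
          have : {X : Fin n → Sph d | ∀ t, X t ∈ (Metric.ball u δ)ᶜ}
              = Set.univ.pi (fun _ : Fin n => (Metric.ball u δ)ᶜ) := by
            ext X; simp
          rw [this, measureReal_def, sampleLaw, Measure.pi_pi]
          simp [measureReal_def]
  have hlim : Tendsto (fun n : ℕ => ∑ u ∈ hfin.toFinset, ((unif d).real (Metric.ball u δ)ᶜ) ^ n)
      atTop (𝓝 0) := by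
    have := tendsto_finsetSum (f := fun (u : Sph d) (n : ℕ) => ((unif d).real (Metric.ball u δ)ᶜ) ^ n)
      (a := fun _ => (0:ℝ)) hfin.toFinset (x := atTop)
      (fun u _ => tendsto_pow_atTop_nhds_zero_of_lt_one measureReal_nonneg (hq u))
    simpa using this
  obtain ⟨n₀, hn₀⟩ := eventually_atTop.mp (hlim.eventually (gt_mem_nhds hε))
  exact ⟨n₀, fun n hn => (hbound n).trans (hn₀ n hn).le⟩

/-- small `α`: finitely many colours suffice -/
theorem borsuk_colorable {α : ℝ} (hα : α ≤ 1) : (borsukGraph d α).Colorable (2 ^ (d + 1)) := by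
  classical
  let f : Sph d → (Fin (d+1) → Bool) := fun x i => decide (0 ≤ (x : E d) i)
  have hf : ∀ {u v}, (borsukGraph d α).Adj u v → f u ≠ f v := by
    intro u v huv heq
    have h1 : Real.pi - α < gdist u v := huv.2
    have h2 : 0 ≤ inner ℝ (u : E d) (v : E d) := by
      rw [PiLp.inner_apply]
      refine Finset.sum_nonneg (fun i _ => ?_)
      have h3 := congrFun heq i
      simp only [f, decide_eq_decide] at h3
      have h4 : inner ℝ ((u : E d) i) ((v : E d) i) = (u : E d) i * (v : E d) i := by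
        simp [mul_comm]
      rw [h4]
      by_cases h5 : 0 ≤ (u : E d) i
      · exact mul_nonneg h5 (h3.mp h5)
      · have h6 : ¬ 0 ≤ (v : E d) i := fun h => h5 (h3.mpr h)
        push Not at h5 h6
        exact (mul_pos_of_neg_of_neg h5 h6).le
    have h5 : gdist u v ≤ Real.pi / 2 := by
      unfold gdist InnerProductGeometry.angle
      exact Real.arccos_le_pi_div_two.mpr (by positivity)
    have := Real.pi_gt_three
    linarith
  have := (SimpleGraph.Coloring.mk f hf).colorable
  simpa using this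

/-- `α ↦ χ` is constant near `0+` -/
theorem borsuk_const (d : ℕ) : ∃ α₁ > (0:ℝ), ∃ c : ℕ, ∀ α, 0 < α → α < α₁ →
    (borsukGraph d α).chromaticNumber = c := by
  let S : Set ℕ∞ := (fun α : ℝ => (borsukGraph d α).chromaticNumber) '' Ioc 0 1
  have hS : S.Nonempty := ⟨_, 1, ⟨by norm_num, le_rfl⟩, rfl⟩
  obtain ⟨α₁, hα₁, hmin⟩ := csInf_mem hS
  have hle : ∀ α ∈ Ioc (0:ℝ) 1, sInf S ≤ (borsukGraph d α).chromaticNumber := fun α hα =>
    csInf_le (OrderBot.bddBelow S) ⟨α, hα, rfl⟩
  have htop : (borsukGraph d α₁).chromaticNumber ≠ ⊤ :=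
    SimpleGraph.chromaticNumber_ne_top_iff_exists.mpr ⟨_, borsuk_colorable hα₁.2⟩
  obtain ⟨c, hc⟩ := ENat.ne_top_iff_exists.mp htop
  refine ⟨α₁, hα₁.1, c, fun α h0 h1 => ?_⟩
  rw [hc]
  refine le_antisymm ?_ ?_
  · exact SimpleGraph.chromaticNumber_mono _ (borsuk_mono h1.le)
  · have := hle α ⟨h0, h1.le.trans hα₁.2⟩
    rw [← hmin] at this
    exact this

end BorsukLib
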