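import Pool.Agent.Lib.Helper95.Borsuk.Corr

/-!
# Conditional probabilities given masked samples: tower property and averaging inequality
-/

open MeasureTheory Set

noncomputable section

namespace BorsukLib

variable {S : Type*} [MeasurableSpace S] {n : ℕ}

open Classical in
theorem single_tower (μ : Measure S) [IsProbabilityMeasure μ] {W U : Set S}
    (hU : MeasurableSet U) (hWU : W ⊆ U) (hW : MeasurableSet W)
    (hU0 : μ Uᶜ ≠ 0) {F : S → ℝ} (hF : BM F) :
    ∫ b, (if b ∈ U then F b else ∫ c, F c ∂(nu μ U)) ∂(nu μ W) = ∫ b, F b ∂(nu μ W) := by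
  have hW0 : μ Wᶜ ≠ 0 := fun h => hU0 (measure_mono_null (compl_subset_compl.mpr hWU) h)
  have hp := nu_prob μ hU0
  have hcW : μ.real Wᶜ ≠ 0 := by
    rw [measureReal_def]; exact (ENNReal.toReal_pos hW0 (measure_ne_top _ _)).ne'
  have hcU : μ.real Uᶜ ≠ 0 := by
    rw [measureReal_def]; exact (ENNReal.toReal_pos hU0 (measure_ne_top _ _)).ne'
  have hnuU : ∫ c, F c ∂(nu μ U) = (μ.real Uᶜ)⁻¹ * ∫ c in Uᶜ, F c ∂μ := by
    unfold nu
    rw [ProbabilityTheory.cond, integral_smul_measure, ENNReal.toReal_inv, smul_eq_mul,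
      ← measureReal_def]
  unfold nu at *
  rw [ProbabilityTheory.cond, integral_smul_measure, integral_smul_measure]
  congr 1
  set m := ∫ c, F c ∂(ProbabilityTheory.cond μ Uᶜ) with hm
  have b1 : BM (fun b => if b ∈ U then F b else m) := BM.ite hF (BM.const m) hU
  have hsub : Uᶜ ⊆ Wᶜ := compl_subset_compl.mpr hWU
  have hspl : ∀ {G : S → ℝ}, BM G → ∫ b in Wᶜ, G b ∂μ = ∫ b in Wᶜ \ Uᶜ, G b ∂μ + ∫ b in Uᶜ, G b ∂μ := by
    intro G hG
    have h1 : Wᶜ = (Wᶜ \ Uᶜ) ∪ Uᶜ := (Set.sdiff_union_of_subset hsub).symm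
    conv_lhs => rw [h1]
    exact setIntegral_union disjoint_sdiff_left hU.compl (hG.integrable μ).integrableOn
      (hG.integrable μ).integrableOn
  rw [hspl b1, hspl hF]
  congr 1
  · refine setIntegral_congr_fun (hW.compl.diff hU.compl) (fun b hb => ?_)
    have : b ∈ U := by
      by_contra h; exact hb.2 h
    simp [this]
  · have e1 : ∫ b in Uᶜ, (if b ∈ U then F b else m) ∂μ = ∫ b in Uᶜ, m ∂μ := by
      refine setIntegral_congr_fun hU.compl (fun b hb => ?_)
      have : b ∉ U := hb
      simp [this]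
    rw [e1, setIntegral_const, smul_eq_mul, hnuU]
    field_simp

theorem tower (μ : Measure S) [IsProbabilityMeasure μ] {W U : Set S}
    (hU : MeasurableSet U) (hWU : W ⊆ U) (hW : MeasurableSet W) (hU0 : μ Uᶜ ≠ 0) :
    ∀ (n : ℕ) (f : (Fin n → S) → ℝ), BM f → ∀ x, EE μ W (EE μ U f) x = EE μ W f x := by
  classical
  have hW0 : μ Wᶜ ≠ 0 := fun h => hU0 (measure_mono_null (compl_subset_compl.mpr hWU) h)
  have hpU := nu_prob μ hU0
  have hpW := nu_prob μ hW0
  intro n
  induction n with
  | zero =>
    intro f hf x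
    unfold EE
    have h2 : ∀ (C : Set S) (y z : Fin 0 → S), mix C y z = x := fun C y z =>
      Subsingleton.elim _ _
    simp_rw [h2]
    simp
  | succ n ih =>
    intro f hf x
    obtain ⟨a, x', rfl⟩ : ∃ a x', x = Fin.cons a x' := ⟨x 0, Fin.tail x, by simp⟩
    have bf : BM (fun p : S × (Fin n → S) => f (Fin.cons p.1 p.2)) := hf.comp cons_measurable
    rw [EE_cons μ hW hW0 (hf.EE hU hU0), EE_cons μ hW hW0 hf]
    by_cases ha : a ∈ W
    · have haU : a ∈ U := hWU ha
      have e1 : P1 μ W (EE μ U f) a = EE μ U (fun y => f (Fin.cons a y)) := by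
        funext y
        simp only [P1, ha, if_true]
        rw [EE_cons μ hU hU0 hf]
        congr 1
        funext z
        simp [P1, haU]
      have e2 : P1 μ W f a = fun y => f (Fin.cons a y) := by
        funext y; simp [P1, ha]
      rw [e1, e2]
      exact ih _ (bf.comp (measurable_const.prodMk measurable_id)) x'
    · have e2 : P1 μ W f a = fun y => ∫ b, f (Fin.cons b y) ∂(nu μ W) := by
        funext y; simp [P1, ha]
      have bP : BM (fun p : S × (Fin n → S) => P1 μ U f p.1 p.2) := BM.P1 hU hU0 hf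
      have e1 : P1 μ W (EE μ U f) a = EE μ U (P1 μ W f a) := by
        funext y
        rw [e2]
        simp only [P1, ha, if_false]
        simp_rw [EE_cons μ hU hU0 hf]
        unfold EE
        rw [integral_integral_swap]
        · congr 1
          funext z
          have := single_tower μ hU hWU hW hU0 (F := fun b => f (Fin.cons b (mix U y z)))
            (bf.comp (measurable_id.prodMk measurable_const))
          simpa [P1] using this
        · have hg : Measurable (fun p : S × (Fin n → S) => (p.1, mix U y p.2)) :=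
            measurable_fst.prodMk ((mix_measurable hU).comp (measurable_const.prodMk measurable_snd))
          exact (bP.comp hg).integrable _
      rw [e1]
      refine ih _ ?_ x'
      rw [e2]
      exact bf.integral_left _

/-- conditional probability of `D` given the sample masked outside `U` -/
def cp (μ : Measure S) (U : Set S) (D : Set (Fin n → S)) (x : Fin n → S) : ℝ :=
  EE μ U (D.indicator (fun _ => (1:ℝ))) x

theorem cp_BM (μ : Measure S) [IsProbabilityMeasure μ] {U : Set S} (hU : MeasurableSet U)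
    (hU0 : μ Uᶜ ≠ 0) {D : Set (Fin n → S)} (hD : MeasurableSet D) : BM (cp μ U D) :=
  (BM.indicator hD).EE hU hU0

theorem cp_nonneg (μ : Measure S) (U : Set S) (D : Set (Fin n → S)) (x : Fin n → S) :
    0 ≤ cp μ U D x :=
  integral_nonneg (fun y => indicator_nonneg (fun _ _ => zero_le_one) _)

theorem cp_le_one (μ : Measure S) [IsProbabilityMeasure μ] {U : Set S}
    (hU : MeasurableSet U) (hU0 : μ Uᶜ ≠ 0) {D : Set (Fin n → S)} (hD : MeasurableSet D)
    (x : Fin n → S) : cp μ U D x ≤ 1 := by
  have := nu_prob μ hU0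
  unfold cp EE
  have hb : BM (fun y : Fin n → S => D.indicator (fun _ => (1:ℝ)) (mix U x y)) :=
    (BM.indicator hD).comp ((mix_measurable hU).comp (measurable_const.prodMk measurable_id))
  calc ∫ y, D.indicator (fun _ => (1:ℝ)) (mix U x y) ∂(Measure.pi fun _ : Fin n => nu μ U)
      ≤ ∫ y, (1:ℝ) ∂(Measure.pi fun _ : Fin n => nu μ U) := by
        refine integral_mono (hb.integrable _) ((BM.const 1).integrable _) (fun y => ?_)
        by_cases h : mix U x y ∈ D <;> simp [h]
    _ = 1 := by simp

theorem cp_dep (μ : Measure S) (U : Set S) (D : Set (Fin n → S)) : Dep U (cp μ U D) := by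
  intro x y h
  have e : ∀ z : Fin n → S, mix U x z = mix U y z := by
    intro z
    funext t
    simp only [mix]
    rcases h t with h | ⟨h1, h2⟩
    · rw [h]
    · simp [h1, h2]
  simp only [cp, EE, e]

theorem Dep.mono {U V : Set S} (hUV : U ⊆ V) {f : (Fin n → S) → ℝ} (h : Dep U f) : Dep V f := by
  intro x y hxy
  apply h
  intro t
  rcases hxy t with h | ⟨h1, h2⟩
  · exact Or.inl h
  · exact Or.inr ⟨fun h => h1 (hUV h), fun h => h2 (hUV h)⟩

theorem cp_empty (μ : Measure S) [IsProbabilityMeasure μ] {D : Set (Fin n → S)}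
    (hD : MeasurableSet D) (x : Fin n → S) :
    cp μ ∅ D x = (Measure.pi fun _ : Fin n => μ).real D := by
  have e1 : nu μ (∅ : Set S) = μ := by simp [nu]
  have e2 : ∀ y : Fin n → S, mix ∅ x y = y := by
    intro y; funext t; simp [mix]
  simp only [cp, EE, e1, e2]
  rw [integral_indicator_const _ hD]
  simp

theorem cp_pos (μ : Measure S) (U : Set S) (D : Set (Fin n → S)) {x : Fin n → S}
    (h : 0 < cp μ U D x) : ∃ y ∈ D, ∀ t, x t ∈ U → y t = x t := by
  by_contra hcon
  push Not at hcon
  have : cp μ U D x = 0 := by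
    unfold cp EE
    have h0 : ∀ y : Fin n → S, D.indicator (fun _ => (1:ℝ)) (mix U x y) = 0 := by
      intro y
      rw [indicator_of_notMem]
      intro hy
      obtain ⟨t, ht1, ht2⟩ := hcon _ hy
      exact ht2 (by simp [mix, ht1])
    simp [h0]
  linarith

/-- **Averaging inequality.** If `A_1, …, A_M` are disjoint from each other and small, the average of
the conditional probabilities given the samples masked outside `W ∪ A_i` is close to the one given
the sample masked outside `W`. -/
theorem average_ineq (μ : Measure S) [IsProbabilityMeasure μ] {W : Set S} (hW : MeasurableSet W)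
    {M : ℕ} (hM : 0 < M) (A : Fin M → Set S) (hA : ∀ i, MeasurableSet (A i))
    (hdisj : ∀ i j, i ≠ j → Disjoint (A i) (A j)) {η : ℝ} (hη : 0 < η)
    (hAη : ∀ i, μ.real (A i) ≤ η) (hWA : ∀ i, μ.real W + μ.real (A i) ≤ 1 / 2)
    (n : ℕ) {D : Set (Fin n → S)} (hD : MeasurableSet D) {s : ℝ} (hs : 0 < s)
    (hs2 : 1 / (M:ℝ) + 4 * η ≤ s ^ 2) :
    ∫ x, |(1 / (M:ℝ)) * ∑ i, cp μ (W ∪ A i) D x - cp μ W D x| ∂(Measure.pi fun _ => μ) ≤ s := by
  classical
  set P : Measure (Fin n → S) := Measure.pi fun _ => μ with hP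
  have hMpos : (0:ℝ) < M := by exact_mod_cast hM
  have hU0 : ∀ i, μ (W ∪ A i)ᶜ ≠ 0 := fun i =>
    compl_ne_zero (hW.union (hA i)) ((measureReal_union_le _ _).trans (hWA i))
  have hW0 : μ Wᶜ ≠ 0 := by
    have i0 : Fin M := ⟨0, hM⟩
    exact fun h => hU0 i0 (measure_mono_null (compl_subset_compl.mpr subset_union_left) h)
  set u : Fin M → (Fin n → S) → ℝ := fun i x => cp μ (W ∪ A i) D x - cp μ W D x with hu
  have bW : BM (cp μ W D) := cp_BM μ hW hW0 hD
  have bU : ∀ i, BM (cp μ (W ∪ A i) D) := fun i => cp_BM μ (hW.union (hA i)) (hU0 i) hD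
  have bu : ∀ i, BM (u i) := fun i => (bU i).sub bW
  have habs : ∀ i x, |u i x| ≤ 1 := by
    intro i x
    have h1 := cp_nonneg μ (W ∪ A i) D x
    have h2 := cp_nonneg μ W D x
    have h3 := cp_le_one μ (hW.union (hA i)) (hU0 i) hD x
    have h4 := cp_le_one μ hW hW0 hD x
    rw [abs_le]; constructor <;> simp only [hu] <;> linarith
  have hsq : ∀ i, ∫ x, u i x ^ 2 ∂P ≤ 1 := by
    intro i
    calc ∫ x, u i x ^ 2 ∂P ≤ ∫ x, (1:ℝ) ∂P := by
          refine integral_mono ((bu i).sq.integrable P) ((BM.const 1).integrable P) (fun x => ?_)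
          have := habs i x
          show u i x ^ 2 ≤ 1
          rw [← sq_abs]
          nlinarith [abs_nonneg (u i x)]
      _ = 1 := by simp
  have hE : ∀ i x, EE μ W (u i) x = 0 := by
    intro i x
    have hp := nu_prob μ hW0
    have h1 : EE μ W (u i) x = EE μ W (cp μ (W ∪ A i) D) x - EE μ W (cp μ W D) x := by
      unfold EE
      have hm : Measurable (fun y : Fin n → S => mix W x y) :=
        (mix_measurable hW).comp (measurable_const.prodMk measurable_id)
      exact integral_sub (((bU i).comp hm).integrable _) ((bW.comp hm).integrable _)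
    have h2 : EE μ W (cp μ (W ∪ A i) D) x = EE μ W (D.indicator (fun _ => (1:ℝ))) x :=
      tower μ (hW.union (hA i)) subset_union_left hW (hU0 i) n _ (BM.indicator hD) x
    have h3 : EE μ W (cp μ W D) x = EE μ W (D.indicator (fun _ => (1:ℝ))) x :=
      tower μ hW subset_rfl hW hW0 n _ (BM.indicator hD) x
    rw [h1, h2, h3, sub_self]
  have hdep : ∀ i, Dep (W ∪ A i) (u i) := by
    intro i x y h
    have h1 := cp_dep μ (W ∪ A i) D x y h
    have h2 := (Dep.mono (subset_union_left (s := W) (t := A i)) (cp_dep μ W D)) x y h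
    simp only [hu, h1, h2]
  have hcross : ∀ i j, i ≠ j → ∫ x, u i x * u j x ∂P ≤ 4 * η := by
    intro i j hij
    have h := prod_ineq μ hW (hA i) (hA j) (hdisj i j hij) hη (hAη i) (hAη j) (hWA i) (hWA j) n
      (u i) (u j) (bu i) (bu j) (hdep i) (hdep j) (hE i) (hE j)
    refine (le_abs_self _).trans (h.trans ?_)
    have h1 := hsq i
    have h2 := hsq j
    nlinarith
  -- second moment of the average
  set g : (Fin n → S) → ℝ := fun x => (1 / (M:ℝ)) * ∑ i, u i x with hg
  have bg : BM g := (BM.sum Finset.univ (fun i _ => bu i)).const_mul _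
  have hgeq : ∀ x, (1 / (M:ℝ)) * ∑ i, cp μ (W ∪ A i) D x - cp μ W D x = g x := by
    intro x
    simp only [hg, hu, Finset.sum_sub_distrib, Finset.sum_const, Finset.card_univ, Fintype.card_fin,
      nsmul_eq_mul]
    field_simp
  have hg2 : ∫ x, g x ^ 2 ∂P ≤ s ^ 2 := by
    refine le_trans ?_ hs2
    have e1 : ∀ x, g x ^ 2 = (1 / (M:ℝ)) ^ 2 * ∑ i, ∑ j, u i x * u j x := by
      intro x
      simp only [hg]
      rw [mul_pow, pow_two (∑ i, u i x), Finset.sum_mul_sum]
    simp_rw [e1]
    rw [integral_const_mul, integral_finsetSum]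
    · have e2 : ∀ i ∈ (Finset.univ : Finset (Fin M)), ∫ x, ∑ j, u i x * u j x ∂P ≤ 1 + M * (4 * η) := by
        intro i _
        rw [integral_finsetSum _ (fun j _ => ((bu i).mul (bu j)).integrable P)]
        rw [← Finset.add_sum_erase _ _ (Finset.mem_univ i)]
        have h1 : ∫ x, u i x * u i x ∂P ≤ 1 := by
          have := hsq i
          simpa [pow_two] using this
        have h2 : ∑ j ∈ Finset.univ.erase i, ∫ x, u i x * u j x ∂P
            ≤ ∑ _j ∈ Finset.univ.erase i, (4 * η) :=
          Finset.sum_le_sum (fun j hj => hcross i j (Finset.ne_of_mem_erase hj).symm)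
        have h3 : ∑ _j ∈ (Finset.univ : Finset (Fin M)).erase i, (4 * η) ≤ M * (4 * η) := by
          rw [Finset.sum_const, nsmul_eq_mul]
          refine mul_le_mul_of_nonneg_right ?_ (by positivity)
          have := Finset.card_erase_le (s := (Finset.univ : Finset (Fin M))) (a := i)
          rw [Finset.card_univ, Fintype.card_fin] at this
          exact_mod_cast this
        linarith
      have e3 := Finset.sum_le_sum e2
      rw [Finset.sum_const, Finset.card_univ, Fintype.card_fin, nsmul_eq_mul] at e3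
      calc (1 / (M:ℝ)) ^ 2 * ∑ i, ∫ x, ∑ j, u i x * u j x ∂P
          ≤ (1 / (M:ℝ)) ^ 2 * (M * (1 + M * (4 * η))) :=
            mul_le_mul_of_nonneg_left e3 (by positivity)
        _ = 1 / (M:ℝ) + 4 * η := by field_simp
    · intro i _
      exact (BM.sum Finset.univ (fun j _ => (bu i).mul (bu j))).integrable P
  simp_rw [hgeq]
  have hpt : ∀ x, |g x| ≤ (1 / (2 * s)) * g x ^ 2 + s / 2 := by
    intro x
    have h1 : 0 ≤ (|g x| - s) ^ 2 := sq_nonneg _
    have h2 : (1 / (2 * s)) * g x ^ 2 + s / 2 - |g x| = (|g x| - s) ^ 2 / (2 * s) := by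
      rw [← sq_abs (g x)]; field_simp; ring
    have h3 : 0 ≤ (|g x| - s) ^ 2 / (2 * s) := by positivity
    linarith
  calc ∫ x, |g x| ∂P ≤ ∫ x, ((1 / (2 * s)) * g x ^ 2 + s / 2) ∂P :=
        integral_mono (bg.abs.integrable P)
          (((bg.sq.const_mul _).add (BM.const _)).integrable P) hpt
    _ = (1 / (2 * s)) * (∫ x, g x ^ 2 ∂P) + s / 2 := by
        rw [integral_add ((bg.sq.const_mul _).integrable P) ((BM.const _).integrable P),
          integral_const_mul]
        simp
    _ ≤ (1 / (2 * s)) * s ^ 2 + s / 2 := by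
        have : 0 ≤ 1 / (2 * s) := by positivity
        nlinarith [mul_le_mul_of_nonneg_left hg2 this]
    _ = s := by field_simp; ring

end BorsukLib
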