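import Pool.Agent.Lib.Helper95.Borsuk.Defs
import Pool.Agent.Lib.Helper95.Borsuk.Tower

/-!
# The tree of flags: with high probability the sample agrees near some hyperplane with a point of `D`
-/

open MeasureTheory Set Filter Topology

noncomputable section

namespace BorsukLib

variable {d : ℕ}

/-- near some hyperplane, `x` agrees with an element of `D` -/
def Good {n : ℕ} (r : ℝ) (D : Set (Fin n → Sph d)) (x : Fin n → Sph d) : Prop :=
  ∃ ν : E d, ‖ν‖ = 1 ∧ ∃ y ∈ D, ∀ t, |inner ℝ ν (x t : E d)| ≤ r → y t = x t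

/-- neighbourhood of the codimension `m + 1` subspace `{x_0 = ⋯ = x_{m-1} = 0, ⟨w, x⟩ = 0}` -/
def Reg (m : ℕ) (w : E d) (s : ℝ) : Set (Sph d) :=
  {x | (∀ l : Fin (d+1), (l:ℕ) < m → |(x : E d) l| ≤ s) ∧ |inner ℝ w (x : E d)| ≤ s}

theorem Reg_measurable (m : ℕ) (w : E d) (s : ℝ) : MeasurableSet (Reg m w s) := by
  have h1 : MeasurableSet {x : Sph d | ∀ l : Fin (d+1), (l:ℕ) < m → |(x : E d) l| ≤ s} := by
    have : {x : Sph d | ∀ l : Fin (d+1), (l:ℕ) < m → |(x : E d) l| ≤ s}
        = ⋂ l : Fin (d+1), ⋂ (_ : (l:ℕ) < m), {x : Sph d | |(x : E d) l| ≤ s} := by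
      ext x; simp
    rw [this]
    refine MeasurableSet.iInter (fun l => MeasurableSet.iInter (fun _ => ?_))
    have hm : Measurable fun x : Sph d => |(x : E d) l| := by fun_prop
    exact hm measurableSet_Iic
  exact h1.inter (slab_measurable w s)

theorem Reg_subset_slab (m : ℕ) (w : E d) (s : ℝ) : Reg m w s ⊆ slab w s := fun _ hx => hx.2

theorem Reg_mono (m : ℕ) (w : E d) {s s' : ℝ} (h : s ≤ s') : Reg m w s ⊆ Reg m w s' :=
  fun _ hx => ⟨fun l hl => (hx.1 l hl).trans h, hx.2.trans h⟩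

/-- the children of a flag node -/
def child (m : ℕ) (hm : m < d + 1) (w : E d) (i : ℕ) : E d :=
  EuclideanSpace.single ⟨m, hm⟩ (1:ℝ) + (i:ℝ) • w

theorem child_inner (m : ℕ) (hm : m < d + 1) (w : E d) (i : ℕ) (x : E d) :
    inner ℝ (child m hm w i) x = x ⟨m, hm⟩ + i * inner ℝ w x := by
  rw [child, inner_add_left, real_inner_smul_left, EuclideanSpace.inner_single_left]
  simp

/-- two different children only meet near the parent -/
theorem child_inter (m : ℕ) (hm : m < d + 1) (w : E d) {M : ℕ} {s : ℝ}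
    {i j : ℕ} (hi : i < M) (hij : i ≠ j) {x : Sph d}
    (h1 : x ∈ Reg m (child m hm w i) s) (h2 : x ∈ Reg m (child m hm w j) s) :
    x ∈ Reg (m+1) w ((2 * M + 1) * s) := by
  obtain ⟨h11, h12⟩ := h1
  obtain ⟨-, h22⟩ := h2
  rw [child_inner] at h12 h22
  set a := (x : E d) ⟨m, hm⟩ with ha
  set b := inner ℝ w (x : E d) with hb
  have hs : 0 ≤ s := (abs_nonneg _).trans h12
  have hiM : (i:ℝ) ≤ M := by exact_mod_cast hi.le
  have hM0 : (0:ℝ) ≤ M := by positivity
  have hi0 : (0:ℝ) ≤ i := by positivity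
  have hd : 1 ≤ |(i:ℝ) - j| := by
    have : (1:ℤ) ≤ |(i:ℤ) - j| := Int.one_le_abs (by omega)
    exact_mod_cast this
  have hb2 : |b| ≤ 2 * s := by
    have e : ((i:ℝ) - j) * b = (a + i * b) - (a + j * b) := by ring
    have h3 : |((i:ℝ) - j) * b| ≤ 2 * s := by
      rw [e]
      calc |(a + i * b) - (a + j * b)| ≤ |a + i * b| + |a + j * b| := abs_sub _ _
        _ ≤ 2 * s := by linarith
    rw [abs_mul] at h3
    nlinarith [abs_nonneg b]
  have ha2 : |a| ≤ (2 * M + 1) * s := by
    have e : a = (a + i * b) - i * b := by ring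
    have h3 : |(i:ℝ) * b| ≤ M * (2 * s) := by
      rw [abs_mul, abs_of_nonneg hi0]
      exact mul_le_mul hiM hb2 (abs_nonneg _) hM0
    calc |a| = |(a + i * b) - i * b| := by rw [← e]
      _ ≤ |a + i * b| + |i * b| := abs_sub _ _
      _ ≤ (2 * M + 1) * s := by linarith
  refine ⟨fun l hl => ?_, ?_⟩
  · rcases Nat.lt_succ_iff_lt_or_eq.mp hl with h | h
    · refine (h11 l h).trans ?_
      nlinarith
    · have : l = ⟨m, hm⟩ := Fin.ext h
      rw [this]; exact ha2
  · refine hb2.trans ?_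
    have h4 : (M:ℝ) ≥ 1 := by
      have : 1 ≤ M := by omega
      exact_mod_cast this
    nlinarith

theorem flags (d : ℕ) : ∀ (m : ℕ) (hm : m < d + 1) (w : E d),
    (∀ l : Fin (d+1), (l:ℕ) < m → w l = 0) → w ⟨m, hm⟩ = 1 → ∀ ε > (0:ℝ), ∀ c < (1/2 : ℝ),
    ∃ K > (0:ℝ), ∀ᶠ r in 𝓝[>] (0:ℝ), ∀ (n : ℕ) (D : Set (Fin n → Sph d)), MeasurableSet D →
      ∀ W : Set (Sph d), MeasurableSet W → Reg m w (K * r) ⊆ W → (unif d).real W ≤ c →
      ∃ h : (Fin n → Sph d) → ℝ, BM h ∧
        ∫ x, |h x - cp (unif d) W D x| ∂(sampleLaw d n) ≤ ε ∧ ∀ x, 0 < h x → Good r D x := by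
  intro m
  induction m with
  | zero =>
    intro hm w _ hw1 ε hε c hc
    have hw0 : w ≠ 0 := by
      rintro rfl; simp at hw1
    have hnorm : 0 < ‖w‖ := norm_pos_iff.mpr hw0
    refine ⟨‖w‖, hnorm, ?_⟩
    filter_upwards [self_mem_nhdsWithin] with r hr n D hD W hW hsub hWc
    have hW0 : (unif d) Wᶜ ≠ 0 := compl_ne_zero hW (hWc.trans hc.le)
    refine ⟨cp (unif d) W D, cp_BM _ hW hW0 hD, by simp [hε.le], fun x hx => ?_⟩
    obtain ⟨y, hy, hyx⟩ := cp_pos _ _ _ hx
    refine ⟨‖w‖⁻¹ • w, ?_, y, hy, fun t ht => hyx t (hsub ⟨fun l hl => absurd hl (by omega), ?_⟩)⟩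
    · rw [norm_smul, norm_inv, norm_norm, inv_mul_cancel₀ hnorm.ne']
    · rw [real_inner_smul_left, abs_mul, abs_of_pos (inv_pos.mpr hnorm)] at ht
      rwa [inv_mul_le_iff₀ hnorm] at ht
  | succ m ih =>
    intro hm w hw0 hw1 ε hε c hc
    have hm' : m < d + 1 := by omega
    -- choice of the parameters
    obtain ⟨M, hM⟩ : ∃ M : ℕ, 8 / ε ^ 2 < M := exists_nat_gt _
    have hMpos' : (0:ℝ) < M := lt_trans (by positivity) hM
    have hMpos : 0 < M := by exact_mod_cast hMpos'
    set s : ℝ := ε / 2 with hs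
    have hspos : 0 < s := by positivity
    have hM1 : 1 / (M:ℝ) ≤ s ^ 2 / 2 := by
      rw [div_le_iff₀ hMpos']
      have h8 : 8 / ε ^ 2 * ε ^ 2 = 8 := by field_simp
      have : 8 ≤ M * ε ^ 2 := by
        have := mul_lt_mul_of_pos_right hM (show 0 < ε ^ 2 by positivity)
        linarith
      rw [hs]; nlinarith
    set η : ℝ := min (s ^ 2 / 8) ((1 / 2 - c) / 2) with hη
    have hηpos : 0 < η := lt_min (by positivity) (by linarith)
    have hη1 : η ≤ s ^ 2 / 8 := min_le_left _ _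
    have hη2 : η ≤ (1 / 2 - c) / 2 := min_le_right _ _
    -- the children
    set wi : Fin M → E d := fun i => child m hm' w i with hwi
    have hwi0 : ∀ i, ∀ l : Fin (d+1), (l:ℕ) < m → wi i l = 0 := by
      intro i l hl
      have h1 : w l = 0 := hw0 l (by omega)
      have h2 : l ≠ ⟨m, hm'⟩ := fun h => by rw [h] at hl; simp at hl
      simp [hwi, child, h1, h2]
    have hwm : w ⟨m, hm'⟩ = 0 := hw0 _ (by simp)
    have hwi1 : ∀ i, wi i ⟨m, hm'⟩ = 1 := by
      intro i
      simp [hwi, child, hwm]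
    have hwine : ∀ i, wi i ≠ 0 := by
      intro i h0
      have := hwi1 i
      rw [h0] at this
      simp at this
    choose Ki hKi hev using fun i : Fin M => ih hm' (wi i) (hwi0 i) (hwi1 i) s hspos
      ((1 / 2 + c) / 2) (by linarith)
    set K' : ℝ := ∑ i, Ki i with hK'
    have hKle : ∀ i, Ki i ≤ K' := fun i =>
      Finset.single_le_sum (fun j _ => (hKi j).le) (Finset.mem_univ i)
    have hK'pos : 0 < K' := lt_of_lt_of_le (hKi ⟨0, hMpos⟩) (hKle _)
    refine ⟨(2 * M + 1) * K', by positivity, ?_⟩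
    have hev1 : ∀ᶠ r in 𝓝[>] (0:ℝ), ∀ i, (unif d).real (slab (wi i) (K' * r)) ≤ η := by
      rw [eventually_all]
      intro i
      obtain ⟨s₀, hs₀, hsl⟩ := slab_small (hwine i) hηpos
      have : ∀ᶠ r in 𝓝[>] (0:ℝ), r < s₀ / K' :=
        (Ioo_mem_nhdsGT (show (0:ℝ) < s₀ / K' by positivity)) |> fun h =>
          mem_of_superset h (fun r hr => hr.2)
      filter_upwards [this] with r hr
      refine hsl _ ?_
      rw [lt_div_iff₀ hK'pos] at hr
      linarith
    have hev2 := eventually_all.mpr hev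
    filter_upwards [self_mem_nhdsWithin, hev1, hev2] with r hr hr1 hr2 n D hD W hW hsub hWc
    have hr0 : (0:ℝ) < r := hr
    set A : Fin M → Set (Sph d) := fun i => Reg m (wi i) (K' * r) \ W with hA
    have hAm : ∀ i, MeasurableSet (A i) := fun i => (Reg_measurable _ _ _).diff hW
    have hAη : ∀ i, (unif d).real (A i) ≤ η := fun i =>
      (measureReal_mono ((sdiff_subset).trans (Reg_subset_slab _ _ _))).trans (hr1 i)
    have hdisj : ∀ i j, i ≠ j → Disjoint (A i) (A j) := by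
      intro i j hij
      rw [Set.disjoint_left]
      intro x hx1 hx2
      refine hx1.2 (hsub ?_)
      have := child_inter m hm' w (M := M) i.2 (fun h => hij (Fin.ext h)) hx1.1 hx2.1
      rwa [mul_assoc]
    have hU : ∀ i, (unif d).real (W ∪ A i) ≤ (1 / 2 + c) / 2 := by
      intro i
      have h1 := measureReal_union_le (μ := unif d) W (A i)
      have h2 := hAη i
      linarith
    have hUsub : ∀ i, Reg m (wi i) (Ki i * r) ⊆ W ∪ A i := by
      intro i x hx
      by_cases hxW : x ∈ W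
      · exact Or.inl hxW
      · exact Or.inr ⟨Reg_mono _ _ (mul_le_mul_of_nonneg_right (hKle i) hr0.le) hx, hxW⟩
    choose h hBM hint hgood using fun i => hr2 i n D hD (W ∪ A i) (hW.union (hAm i)) (hUsub i) (hU i)
    have hW0 : (unif d) Wᶜ ≠ 0 := compl_ne_zero hW (hWc.trans hc.le)
    have hU0 : ∀ i, (unif d) (W ∪ A i)ᶜ ≠ 0 := fun i =>
      compl_ne_zero (hW.union (hAm i)) ((hU i).trans (by linarith))
    have bW := cp_BM (unif d) hW hW0 hD
    have bU := fun i => cp_BM (unif d) (hW.union (hAm i)) (hU0 i) hD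
    refine ⟨fun x => (1 / (M:ℝ)) * ∑ i, h i x, (BM.sum _ (fun i _ => hBM i)).const_mul _, ?_, ?_⟩
    · have havg := average_ineq (unif d) hW hMpos A hAm hdisj hηpos hAη
        (fun i => by have := hAη i; linarith) n hD hspos (by linarith)
      change ∫ x, |(1 / (M:ℝ)) * ∑ i, cp (unif d) (W ∪ A i) D x - cp (unif d) W D x|
        ∂(sampleLaw d n) ≤ s at havg
      have hpt : ∀ x, |(1 / (M:ℝ)) * ∑ i, h i x - cp (unif d) W D x|
          ≤ (1 / (M:ℝ)) * ∑ i, |h i x - cp (unif d) (W ∪ A i) D x|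
            + |(1 / (M:ℝ)) * ∑ i, cp (unif d) (W ∪ A i) D x - cp (unif d) W D x| := by
        intro x
        have e : (1 / (M:ℝ)) * ∑ i, h i x - cp (unif d) W D x
            = (1 / (M:ℝ)) * ∑ i, (h i x - cp (unif d) (W ∪ A i) D x)
              + ((1 / (M:ℝ)) * ∑ i, cp (unif d) (W ∪ A i) D x - cp (unif d) W D x) := by
          rw [Finset.sum_sub_distrib]; ring
        rw [e]
        refine (abs_add_le _ _).trans ?_
        gcongr
        rw [abs_mul, abs_of_pos (show (0:ℝ) < 1 / M by positivity)]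
        gcongr
        exact Finset.abs_sum_le_sum_abs _ _
      have b1 : BM (fun x => (1 / (M:ℝ)) * ∑ i, |h i x - cp (unif d) (W ∪ A i) D x|) :=
        (BM.sum _ (fun i _ => ((hBM i).sub (bU i)).abs)).const_mul _
      have b2 : BM (fun x => |(1 / (M:ℝ)) * ∑ i, cp (unif d) (W ∪ A i) D x - cp (unif d) W D x|) :=
        (((BM.sum _ (fun i _ => bU i)).const_mul _).sub bW).abs
      have b3 : BM (fun x => |(1 / (M:ℝ)) * ∑ i, h i x - cp (unif d) W D x|) :=
        (((BM.sum _ (fun i _ => hBM i)).const_mul _).sub bW).abs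
      calc ∫ x, |(1 / (M:ℝ)) * ∑ i, h i x - cp (unif d) W D x| ∂(sampleLaw d n)
          ≤ ∫ x, ((1 / (M:ℝ)) * ∑ i, |h i x - cp (unif d) (W ∪ A i) D x|
            + |(1 / (M:ℝ)) * ∑ i, cp (unif d) (W ∪ A i) D x - cp (unif d) W D x|) ∂(sampleLaw d n) :=
            integral_mono (b3.integrable _) ((b1.add b2).integrable _) hpt
        _ = (1 / (M:ℝ)) * ∑ i, ∫ x, |h i x - cp (unif d) (W ∪ A i) D x| ∂(sampleLaw d n)
            + ∫ x, |(1 / (M:ℝ)) * ∑ i, cp (unif d) (W ∪ A i) D x - cp (unif d) W D x|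
              ∂(sampleLaw d n) := by
            rw [integral_add (b1.integrable _) (b2.integrable _), integral_const_mul,
              integral_finsetSum _ (fun i _ => (((hBM i).sub (bU i)).abs).integrable _)]
        _ ≤ (1 / (M:ℝ)) * ∑ _i : Fin M, s + s := by
            gcongr with i _
            exact hint i
        _ = ε := by
            rw [Finset.sum_const, Finset.card_univ, Fintype.card_fin, nsmul_eq_mul, hs]
            field_simp
            ring
    · intro x hx
      have hsum : 0 < ∑ i, h i x := by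
        by_contra hcon
        push Not at hcon
        have : (1 / (M:ℝ)) * ∑ i, h i x ≤ 0 :=
          mul_nonpos_of_nonneg_of_nonpos (by positivity) hcon
        exact absurd hx (not_lt.mpr this)
      obtain ⟨i, -, hi⟩ := Finset.exists_lt_of_sum_lt
        (s := Finset.univ) (f := fun _ : Fin M => (0:ℝ)) (g := fun i => h i x) (by simpa using hsum)
      exact hgood i x hi

end BorsukLib
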