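import Pool.Agent.Lib.Helper95.Borsuk.Dense

/-!
# Choice of the two values
-/

open MeasureTheory Set Filter Topology

noncomputable section

namespace BorsukLib

variable {d : ℕ}

theorem colEv_self (α : ℝ) (n : ℕ) : colEv d n α n = univ := by
  ext X
  simp only [colEv, mem_ofPred_eq, mem_univ, iff_true]
  simpa using (sampleGraph α X).colorable_of_fintype

/-- the event that the chromatic number is `k` or `k + 1` -/
def twoEv (d n : ℕ) (α : ℝ) (k : ℕ) : Set (Fin n → Sph d) :=
  {X | (sampleGraph α X).chromaticNumber = k ∨ (sampleGraph α X).chromaticNumber = k + 1}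

theorem colEv_subset (α : ℝ) (n k : ℕ) :
    colEv d n α (k+1) ⊆ twoEv d n α k ∪ (if k = 0 then ∅ else colEv d n α (k - 1)) := by
  intro X hX
  have hX' : (sampleGraph α X).Colorable (k+1) := hX
  have h1 := hX'.chromaticNumber_le
  obtain ⟨c, hc⟩ := ENat.ne_top_iff_exists.mp (ne_top_of_le_ne_top (ENat.natCast_ne_top _) h1)
  rw [← hc] at h1
  have h2 : c ≤ k + 1 := by exact_mod_cast h1
  by_cases h3 : k ≤ c
  · left
    rcases Nat.lt_or_ge k c with h4 | h4
    · right
      rw [← hc]
      have : c = k + 1 := by omega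
      rw [this]; push_cast; rfl
    · left
      rw [← hc]
      have : c = k := by omega
      rw [this]
  · right
    have hk : k ≠ 0 := by omega
    rw [if_neg hk]
    show (sampleGraph α X).Colorable (k-1)
    rw [← SimpleGraph.chromaticNumber_le_iff_colorable, ← hc]
    have : c ≤ k - 1 := by omega
    exact_mod_cast this

/-- the gap estimate implies two-point concentration -/
theorem select (α : ℕ → ℝ)
    (hgap : ∀ ε > (0:ℝ), ∃ n₀ : ℕ, ∀ n ≥ n₀, ∀ k : ℕ,
      (sampleLaw d n).real (colEv d n (α n) k) * (sampleLaw d n).real (colEv d n (α n) (k+1))ᶜ ≤ ε) :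
    ∃ k : ℕ → ℕ, Tendsto (fun n => sampleLaw d n (twoEv d n (α n) (k n))) atTop (𝓝 1) := by
  classical
  have hex : ∀ n : ℕ, ∃ k ∈ Finset.range (n+1), ∀ j ∈ Finset.range (n+1),
      (sampleLaw d n).real (twoEv d n (α n) j) ≤ (sampleLaw d n).real (twoEv d n (α n) k) :=
    fun n => Finset.exists_max_image _ _ ⟨0, by simp⟩
  choose k _ hk using hex
  refine ⟨k, ?_⟩
  have key : ∀ ε > (0:ℝ), ε ≤ 1 → ∃ n₀ : ℕ, ∀ n ≥ n₀,
      1 - 2 * ε ≤ (sampleLaw d n).real (twoEv d n (α n) (k n)) := by
    intro ε hε hε1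
    obtain ⟨n₀, hn₀⟩ := hgap (ε ^ 2) (by positivity)
    refine ⟨n₀, fun n hn => ?_⟩
    set P := sampleLaw d n with hP
    have hexk : ∃ j, ε ≤ P.real (colEv d n (α n) j) := ⟨n, by rw [colEv_self]; simpa using hε1⟩
    set j := Nat.find hexk with hj
    have hj1 : ε ≤ P.real (colEv d n (α n) j) := Nat.find_spec hexk
    have hjn : j ≤ n := Nat.find_min' hexk (by rw [colEv_self]; simpa using hε1)
    have hg := hn₀ n hn j
    have hc1 : P.real (colEv d n (α n) (j+1))ᶜ ≤ ε := by
      have h0 : 0 ≤ P.real (colEv d n (α n) (j+1))ᶜ := measureReal_nonneg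
      nlinarith
    have hc2 : 1 - ε ≤ P.real (colEv d n (α n) (j+1)) := by
      rw [probReal_compl_eq_one_sub (colEv_measurable _ _)] at hc1
      linarith
    have hc3 : P.real (if j = 0 then ∅ else colEv d n (α n) (j - 1)) ≤ ε := by
      by_cases h0 : j = 0
      · simp [h0, hε.le]
      · rw [if_neg h0]
        have := Nat.find_min hexk (m := j - 1) (by omega)
        push Not at this
        exact this.le
    have hc4 : P.real (colEv d n (α n) (j+1)) ≤ P.real (twoEv d n (α n) j)
        + P.real (if j = 0 then ∅ else colEv d n (α n) (j - 1)) :=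
      (measureReal_mono (colEv_subset (α n) n j) (measure_ne_top _ _)).trans (measureReal_union_le _ _)
    have hc5 := hk n j (by simp; omega)
    linarith
  have hreal : Tendsto (fun n => (sampleLaw d n).real (twoEv d n (α n) (k n))) atTop (𝓝 1) := by
    rw [Metric.tendsto_atTop]
    intro ε hε
    obtain ⟨n₀, hn₀⟩ := key (min (ε / 4) 1) (by positivity) (min_le_right _ _)
    refine ⟨n₀, fun n hn => ?_⟩
    have h1 := hn₀ n hn
    have h2 : (sampleLaw d n).real (twoEv d n (α n) (k n)) ≤ 1 := measureReal_le_one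
    have h3 : min (ε / 4) 1 ≤ ε / 4 := min_le_left _ _
    rw [Real.dist_eq, abs_lt]
    constructor <;> linarith
  have h1 : (1 : ENNReal) ≠ ⊤ := ENNReal.one_ne_top
  have := (ENNReal.tendsto_toReal_iff (f := fun n => sampleLaw d n (twoEv d n (α n) (k n)))
    (fun n => measure_ne_top _ _) h1).mp (by simpa [measureReal_def] using hreal)
  exact this

/-- **Two-point concentration** -/
theorem two_point {α₀ : ℝ} {c : ℕ}
    (hc : ∀ α, 0 < α → α < α₀ → (borsukGraph d α).chromaticNumber = c)
    (α : ℕ → ℝ) (hα : ∀ n, 0 < α n ∧ α n < α₀) :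
    ∃ k : ℕ → ℕ, Tendsto (fun n => sampleLaw d n (twoEv d n (α n) (k n))) atTop (𝓝 1) := by
  refine select α (fun ε hε => ?_)
  obtain ⟨a, ha, hgap⟩ := no_gap d hε
  have hα₀ : 0 < α₀ := (hα 0).1.trans (hα 0).2
  set a₀ : ℝ := min (a / 2) (min 1 (α₀ / 2)) with ha₀
  have ha₀pos : 0 < a₀ := lt_min (by positivity) (lt_min one_pos (by positivity))
  have ha₀1 : a₀ ≤ 1 := (min_le_right _ _).trans (min_le_left _ _)
  have ha₀2 : a₀ < α₀ := by
    have : a₀ ≤ α₀ / 2 := (min_le_right _ _).trans (min_le_right _ _)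
    linarith
  have ha₀3 : a₀ < a := by
    have : a₀ ≤ a / 2 := min_le_left _ _
    linarith
  -- the dense regime
  have hdense : ∃ n₀ : ℕ, ∀ n ≥ n₀, ∀ k : ℕ, k + 1 < c → (sampleLaw d n).real (colEv d n a₀ k) ≤ ε := by
    by_cases hc2 : c = 0
    · exact ⟨0, fun n _ k hk => by omega⟩
    · have hnot : ¬ (borsukGraph d a₀).Colorable (c - 1) := by
        rw [← SimpleGraph.chromaticNumber_le_iff_colorable, hc a₀ ha₀pos ha₀2]
        intro h
        have : c ≤ c - 1 := by exact_mod_cast h
        omega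
      obtain ⟨n₀, hn₀⟩ := dense_not_colorable ha₀1 hnot hε
      refine ⟨n₀, fun n hn k hk => le_trans (measureReal_mono ?_ (measure_ne_top _ _)) (hn₀ n hn)⟩
      intro X hX
      exact SimpleGraph.Colorable.mono (show k ≤ c - 1 by omega) hX
  obtain ⟨n₀, hn₀⟩ := hdense
  refine ⟨n₀, fun n hn k => ?_⟩
  by_cases hlt : α n < a
  · exact hgap (α n) (hα n).1 hlt n k
  · push Not at hlt
    by_cases hk : k + 1 < c
    · have h1 : (sampleLaw d n).real (colEv d n (α n) k) ≤ ε := by
        refine le_trans (measureReal_mono ?_ (measure_ne_top _ _)) (hn₀ n hn k hk)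
        intro X hX
        exact SimpleGraph.Colorable.mono_left (sample_mono (by linarith) X) hX
      have h2 : (sampleLaw d n).real (colEv d n (α n) (k+1))ᶜ ≤ 1 := measureReal_le_one
      have h3 : 0 ≤ (sampleLaw d n).real (colEv d n (α n) (k+1))ᶜ := measureReal_nonneg
      have h4 : 0 ≤ (sampleLaw d n).real (colEv d n (α n) k) := measureReal_nonneg
      nlinarith
    · push Not at hk
      have h1 : (colEv d n (α n) (k+1))ᶜ = ∅ := by
        rw [compl_empty_iff]
        ext X
        simp only [mem_univ, iff_true]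
        have h2 : (borsukGraph d (α n)).Colorable c := by
          rw [← SimpleGraph.chromaticNumber_le_iff_colorable, hc (α n) (hα n).1 (hα n).2]
        exact (sample_colorable_of_borsuk h2 X).mono hk
      rw [h1]
      simp [hε.le]

end BorsukLib
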